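import Pool.Agent.H28.HP.Geo

/-!
# The pole formula for almost all Weil polynomials with a given Newton polygon
-/

set_option autoImplicit false

universe u v

namespace Pool.Agent.H28.HP

open CategoryTheory AlgebraicGeometry Polynomial NumberField
  Pool.Agent.W521.Frob Pool.Agent.W458.MF Pool.Agent.W458.RK Pool.Agent.H914 Pool.Agent.W534
  Pool.Agent.H281R3.HT Pool.Agent.TH132.P VarClass Obj WeilCohomology

variable {I : Type} [Fintype I] {p : ℕ} {n g : I → ℕ} {s : I → ℕ → ℚ} {T : I → Set ℕ}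

/-- The numbers of the polynomials tend to infinity. -/
theorem ncard_large (hp : p.Prime) {n g : ℕ} {s : ℕ → ℚ} {T : Set ℕ} (hs : IsPolygon n g s T)
    (N : ℕ) : ∃ m₀ : ℕ, ∀ m ≥ m₀, N ≤ (weilPolysAbove p m n g s T).ncard := by
  obtain ⟨m₀, h⟩ := lam_large hp hs ((4 * 2 ^ g) * (N + 1))
  refine ⟨m₀ + 1, fun m hm => ?_⟩
  have h1 := h m (by omega)
  have h2 : ∀ k, 0 < k → k ≤ g → (2 : ℝ) ^ g ≤ lam p m n s k := by
    intro k h0 hk
    refine le_trans ?_ (h1 k h0 hk)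
    have : (0 : ℝ) ≤ (N : ℝ) := Nat.cast_nonneg _
    nlinarith [pow_pos (two_pos (α := ℝ)) g]
  have h3 := above_lower hp hs (by omega : 0 < m) h2
  have h4 : ∏ k : Fin g, ((4 * 2 ^ g : ℝ) * (N + 1)) ≤ ∏ k : Fin g, lam p m n s (g - k) := by
    refine Finset.prod_le_prod (fun _ _ => by positivity) fun k _ => ?_
    exact h1 _ (by have := k.2; omega) (Nat.sub_le _ _)
  rw [Finset.prod_const, Finset.card_univ, Fintype.card_fin, mul_pow] at h4
  have h5 := h4.trans h3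
  have h6 : ((N : ℝ) + 1) ^ g ≤ ((weilPolysAbove p m n g s T).ncard : ℝ) :=
    le_of_mul_le_mul_left h5 (by positivity)
  have h7 : (N : ℝ) + 1 ≤ ((N : ℝ) + 1) ^ g :=
    le_self_pow₀ (by linarith [(Nat.cast_nonneg N : (0 : ℝ) ≤ N)]) hs.pos.ne'
  have h8 : (N : ℝ) ≤ ((weilPolysAbove p m n g s T).ncard : ℝ) := by linarith
  exact_mod_cast h8

theorem main (hp : p.Prime) (hs : ∀ i, IsPolygon (n i) (g i) (s i) (T i))
    (E : Subfield ℂ) [NumberField E] (r : ℕ) (hr : ∀ i, r < g i) {ε : ℝ} (hε : 0 < ε) (N : ℕ) :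
    ∃ m₀ : ℕ, ∀ m ≥ m₀,
      (∀ i, (weilPolysAbove p m (n i) (g i) (s i) (T i)).Finite ∧
        N ≤ (weilPolysAbove p m (n i) (g i) (s i) (T i)).ncard) ∧
      ({f : I → ℤ[X] | (∀ i, f i ∈ weilPolysAbove p m (n i) (g i) (s i) (T i)) ∧
        ¬ AllProducts.{u, v} p m n E r f}.ncard : ℝ) ≤
      ε * ∏ i, ((weilPolysAbove p m (n i) (g i) (s i) (T i)).ncard : ℝ) := by
  classical
  obtain ⟨R, hRp, m₀, h⟩ := almost_all_good hp hs E r hr hε
  choose m₁ hm₁ using fun i => ncard_large hp (hs i) N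
  refine ⟨1 + m₀ + ∑ i, m₁ i, fun m hm => ⟨fun i => ⟨finite_above hp, hm₁ i m ?_⟩, ?_⟩⟩
  · have := Finset.single_le_sum (f := m₁) (fun j _ => Nat.zero_le _) (Finset.mem_univ i)
    omega
  refine le_trans ?_ (h m (by omega))
  refine Nat.cast_le.2 (Set.ncard_le_ncard ?_ ?_)
  swap
  · refine (Set.Finite.pi' fun i => finite_above (m := m) (n := n i) (g := g i) (s := s i)
      (T := T i) hp).subset ?_
    rintro f ⟨hf, -⟩
    exact hf
  rintro f ⟨hf, hnot⟩
  refine ⟨hf, fun hgood => hnot ?_⟩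
  intro k _ 𝒱 ops W _ σ Φ Y hY P hP X hX
  exact conclusion_of_good hp (by omega) hRp (fun i => (hs i).pos) (fun i => (hf i).1) hgood hY P
    hP X hX

end Pool.Agent.H28.HP
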