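import Mathlib
import Pool.Graph.R_seed8.W521.Lower

/-!
# The coefficients of a Weil polynomial and of its trace polynomial
-/

set_option autoImplicit false

namespace Pool.Agent.H28.HP

open Polynomial Pool.Agent.W521.Frob Pool.Agent.W521.Descent Pool.Agent.W521.Density
  Pool.Agent.W521.Lower

/-- The coefficients of the powers of `X ^ 2 + q`. -/
theorem coeff_sq_add (q : ℤ) (j m : ℕ) : ((X ^ 2 + C q) ^ j : ℤ[X]).coeff m =
    ∑ t ∈ Finset.range (j + 1), if m = 2 * (j - t) then (j.choose t : ℤ) * q ^ t else 0 := by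
  rw [add_comm (X ^ 2 : ℤ[X]), add_pow, finsetSum_coeff]
  refine Finset.sum_congr rfl fun t ht => ?_
  have h1 : (C q ^ t * (X ^ 2) ^ (j - t) * ((j.choose t : ℕ) : ℤ[X]) : ℤ[X]) =
      C (q ^ t * (j.choose t : ℤ)) * X ^ (2 * (j - t)) := by
    rw [← pow_mul, C_mul, C_pow]
    have h2 : ((j.choose t : ℕ) : ℤ[X]) = C ((j.choose t : ℕ) : ℤ) := by simp
    rw [h2]
    ring
  rw [h1, coeff_C_mul_X_pow]
  split_ifs <;> ring

/-- The coefficients of a Weil polynomial in terms of the trace polynomial. -/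
theorem coeff_weil (q : ℕ) {h : ℤ[X]} {g : ℕ} (hg : h.natDegree = g) {k : ℕ} (hk : k ≤ g) :
    (weil q h).coeff (2 * g - k) = ∑ t ∈ Finset.range (k / 2 + 1),
      ((g - k + 2 * t).choose t : ℤ) * (q : ℤ) ^ t * h.coeff (g - k + 2 * t) := by
  unfold weil
  rw [finsetSum_coeff, hg]
  have h1 : ∀ j ∈ Finset.range (g + 1), (C (h.coeff j) * ((X ^ 2 + C (q : ℤ)) ^ j * X ^ (g - j)) :
      ℤ[X]).coeff (2 * g - k) = ∑ t ∈ Finset.range (j + 1),
        if g + j - k = 2 * (j - t) then h.coeff j * ((j.choose t : ℤ) * (q : ℤ) ^ t) else 0 := by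
    intro j hj
    have hj' : j ≤ g := by
      have := Finset.mem_range.1 hj
      omega
    rw [coeff_C_mul, coeff_mul_X_pow', if_pos (by omega), coeff_sq_add, Finset.mul_sum]
    refine Finset.sum_congr rfl fun t _ => ?_
    rw [show 2 * g - k - (g - j) = g + j - k by omega]
    split_ifs <;> simp
  rw [Finset.sum_congr rfl h1, Finset.sum_sigma']
  rw [← Finset.sum_filter]
  refine Finset.sum_bij' (fun x _ => x.2) (fun t _ => ⟨g - k + 2 * t, t⟩) ?_ ?_ ?_ ?_ ?_
  · rintro ⟨j, t⟩ hx
    simp only [Finset.mem_filter, Finset.mem_sigma, Finset.mem_range] at hx ⊢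
    omega
  · intro t ht
    simp only [Finset.mem_filter, Finset.mem_sigma, Finset.mem_range] at ht ⊢
    omega
  · rintro ⟨j, t⟩ hx
    simp only [Finset.mem_filter, Finset.mem_sigma, Finset.mem_range] at hx
    simp only [Sigma.mk.injEq, heq_eq_eq, and_true]
    omega
  · intro t ht
    rfl
  · rintro ⟨j, t⟩ hx
    simp only [Finset.mem_filter, Finset.mem_sigma, Finset.mem_range] at hx
    have : j = g - k + 2 * t := by omega
    subst this
    ring

end Pool.Agent.H28.HP
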