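import Pool.Agent.H28.HP.Coef

/-!
# Divisibility of the coefficients of a Weil polynomial and of its trace polynomial
-/

set_option autoImplicit false

namespace Pool.Agent.H28.HP

open Polynomial Pool.Agent.W521.Frob Pool.Agent.W521.Descent Pool.Agent.W521.Density
  Pool.Agent.W521.Lower

section

variable {p M g : ℕ} {c : ℕ → ℕ} {h : ℤ[X]}

theorem dvd_sub_coeff (hg : h.natDegree = g) {k : ℕ} (hk : k ≤ g) (e : ℕ)
    (he : ∀ t, 0 < t → 2 * t ≤ k → e ≤ M * t + c (k - 2 * t))
    (hh : ∀ i, i < k → (p : ℤ) ^ c i ∣ h.coeff (g - i)) :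
    (p : ℤ) ^ e ∣ (weil (p ^ M) h).coeff (2 * g - k) - h.coeff (g - k) := by
  rw [coeff_weil (p ^ M) hg hk, Finset.sum_range_succ']
  have h0 : ((g - k + 2 * 0).choose 0 : ℤ) * ((p ^ M : ℕ) : ℤ) ^ 0 * h.coeff (g - k + 2 * 0) =
      h.coeff (g - k) := by simp
  rw [h0, add_sub_cancel_right]
  refine Finset.dvd_sum fun t ht => ?_
  have ht' := Finset.mem_range.1 ht
  have h1 := he (t + 1) (Nat.succ_pos t) (by omega)
  have h2 := hh (k - 2 * (t + 1)) (by omega)
  rw [show g - (k - 2 * (t + 1)) = g - k + 2 * (t + 1) by omega] at h2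
  have h3 : (p : ℤ) ^ (M * (t + 1) + c (k - 2 * (t + 1))) ∣
      ((p ^ M : ℕ) : ℤ) ^ (t + 1) * h.coeff (g - k + 2 * (t + 1)) := by
    rw [pow_add]
    refine mul_dvd_mul ?_ h2
    rw [Nat.cast_pow, ← pow_mul]
  refine (pow_dvd_pow (p : ℤ) h1).trans (h3.trans ?_)
  rw [mul_assoc]
  exact Dvd.intro_left _ rfl

/-- The coefficients of the Weil polynomial are divisible by the prescribed powers if and only if
those of the trace polynomial are. -/
theorem dvd_iff (hg : h.natDegree = g)
    (hc : ∀ k t, k ≤ g → 0 < t → 2 * t ≤ k → c k ≤ M * t + c (k - 2 * t)) :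
    (∀ k ≤ g, (p : ℤ) ^ c k ∣ (weil (p ^ M) h).coeff (2 * g - k)) ↔
      ∀ k ≤ g, (p : ℤ) ^ c k ∣ h.coeff (g - k) := by
  constructor
  · intro hf k
    induction k using Nat.strong_induction_on with
    | _ k ih =>
      intro hk
      have h1 := dvd_sub_coeff hg hk (c k) (fun t h1 h2 => hc k t hk h1 h2)
        (fun i hi => ih i hi (by omega))
      have h2 := dvd_sub (hf k hk) h1
      simpa using h2
  · intro hh k hk
    have h1 := dvd_sub_coeff hg hk (c k) (fun t h1 h2 => hc k t hk h1 h2)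
      (fun i hi => hh i (by omega))
    have h2 := dvd_add h1 (hh k hk)
    simpa using h2

theorem touch_iff (hg : h.natDegree = g) (hh : ∀ k ≤ g, (p : ℤ) ^ c k ∣ h.coeff (g - k)) {k : ℕ}
    (hk : k ≤ g) (hc : ∀ t, 0 < t → 2 * t ≤ k → c k + 1 ≤ M * t + c (k - 2 * t)) :
    (p : ℤ) ^ (c k + 1) ∣ (weil (p ^ M) h).coeff (2 * g - k) ↔
      (p : ℤ) ^ (c k + 1) ∣ h.coeff (g - k) := by
  have h1 := dvd_sub_coeff hg hk (c k + 1) hc (fun i hi => hh i (by omega))
  constructor
  · intro h2
    have h3 := dvd_sub h2 h1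
    simpa using h3
  · intro h2
    have h3 := dvd_add h1 h2
    simpa using h3

end

/-- The coefficients of the Dickson polynomials. -/
theorem dick_coeff (q : ℕ) (n : ℕ) : (∀ k ≤ n, (q : ℤ) ^ ((k + 1) / 2) ∣ (dick q n).coeff (n - k)) ∧
    ∀ k ≤ n + 1, (q : ℤ) ^ ((k + 1) / 2) ∣ (dick q (n + 1)).coeff (n + 1 - k) := by
  induction n with
  | zero =>
    constructor
    · intro k hk
      obtain rfl : k = 0 := by omega
      simp
    · intro k hk
      rcases Nat.lt_or_ge k 1 with h | h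
      · obtain rfl : k = 0 := by omega
        simp
      · obtain rfl : k = 1 := by omega
        simp [dick]
  | succ n ih =>
    refine ⟨ih.2, ?_⟩
    intro k hk
    have h7 : dick q (n + 1 + 1) = X * dick q (n + 1) - C (q : ℤ) * dick q n := rfl
    rw [h7, coeff_sub, coeff_C_mul]
    rcases Nat.lt_or_ge k (n + 2) with h | h
    · have e1 : n + 1 + 1 - k = (n + 1 - k) + 1 := by omega
      rw [e1, coeff_X_mul]
      refine dvd_sub (ih.2 k (by omega)) ?_
      rcases Nat.lt_or_ge k 2 with h2 | h2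
      · have h3 : (dick q n).coeff (n + 1 - k + 1) = 0 := by
          refine coeff_eq_zero_of_natDegree_lt ?_
          have := (dick_deg q n).2.2
          omega
        rw [h3, mul_zero]
        exact dvd_zero _
      · have h3 := ih.1 (k - 2) (by omega)
        rw [show n + 1 - k + 1 = n - (k - 2) by omega, show (k + 1) / 2 = 1 + (k - 2 + 1) / 2 by omega,
          pow_add, pow_one]
        exact mul_dvd_mul_left _ h3
    · obtain rfl : k = n + 2 := by omega
      rw [show n + 1 + 1 - (n + 2) = 0 by omega, coeff_X_mul_zero, zero_sub, dvd_neg]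
      have h3 := ih.1 n le_rfl
      rw [Nat.sub_self] at h3
      rw [show (n + 2 + 1) / 2 = 1 + (n + 1) / 2 by omega, pow_add, pow_one]
      exact mul_dvd_mul_left _ h3

end Pool.Agent.H28.HP
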