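import Pool.Agent.H28.HP.Slopes
import Pool.Agent.H28.HP.Val
import Pool.Graph.R_seed8.W521.Count

/-!
# Counting Weil polynomials with a given Newton polygon
-/

set_option autoImplicit false

namespace Pool.Agent.H28.HP

open Polynomial Pool.Agent.W521.Frob Pool.Agent.W521.Descent Pool.Agent.W521.Density
  Pool.Agent.W521.Lower Pool.Agent.W521.Count

variable {p m n g : ℕ} {s : ℕ → ℚ} {T : Set ℕ}

/-- The size of the coefficients. -/
noncomputable def lam (p m n : ℕ) (s : ℕ → ℚ) (k : ℕ) : ℝ :=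
  Real.sqrt ((p ^ (n * m) : ℕ) : ℝ) ^ k / (p : ℝ) ^ height s m k

theorem lam_pos (hp : p.Prime) (k : ℕ) : 0 < lam p m n s k := by
  have h1 : (0 : ℝ) < ((p ^ (n * m) : ℕ) : ℝ) := by exact_mod_cast pow_pos hp.pos _
  have h2 : (0 : ℝ) < (p : ℝ) := by exact_mod_cast hp.pos
  exact div_pos (pow_pos (Real.sqrt_pos.2 h1) _) (pow_pos h2 _)

/-- The polynomial with the coordinates `x`. -/
noncomputable def trPoly {R : Type*} [CommRing R] (p m g : ℕ) (s : ℕ → ℚ) (x : Fin g → R) : R[X] :=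
  mkPoly g (fun k => (p : R) ^ height s m (g - k) * x k)

theorem weil_trPoly_injective (hp : p.Prime) :
    Function.Injective (fun x : Fin g → ℤ => weil (p ^ (n * m)) (trPoly p m g s x)) := by
  intro x y hxy
  have h1 := weil_injective (pow_ne_zero _ hp.ne_zero) (mkPoly_natDegree g _)
    (mkPoly_natDegree g _) hxy
  have h2 := mkPoly_injective g h1
  funext k
  have h3 := congrFun h2 k
  exact mul_left_cancel₀ (pow_ne_zero _ (by exact_mod_cast hp.ne_zero)) h3

/-- The bound for the coordinates. -/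
noncomputable def bnd (p m n g : ℕ) (s : ℕ → ℚ) (k : Fin g) : ℕ :=
  ⌊(4 : ℝ) ^ g * lam p m n s (g - k)⌋₊

theorem exists_coord (hp : p.Prime) (hs : IsPolygon n g s T) {f : ℤ[X]}
    (hf : f ∈ weilPolysAbove p m n g s T) : ∃ x : Fin g → ℤ,
      f = weil (p ^ (n * m)) (trPoly p m g s x) ∧ ∀ k, |x k| ≤ bnd p m n g s k := by
  obtain ⟨hf1, hf2, -⟩ := hf
  have hQ : p ^ (n * m) ≠ 0 := pow_ne_zero _ hp.ne_zero
  obtain ⟨h, hm, hdeg, rfl⟩ := exists_real hQ hf1
  have h1 : ∀ k ≤ g, (p : ℤ) ^ height s m k ∣ h.coeff (g - k) :=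
    (dvd_iff (p := p) (M := n * m) (c := height s m) hdeg
      fun k t hk _ ht => height_le hs m hk ht).1 hf2
  have h2 : ∀ k : Fin g, ∃ y : ℤ, h.coeff k = (p : ℤ) ^ height s m (g - k) * y := by
    intro k
    have h3 := h1 (g - k) (Nat.sub_le _ _)
    rwa [show g - (g - (k : ℕ)) = k by omega] at h3
  choose x hx using h2
  refine ⟨x, ?_, fun k => ?_⟩
  · congr 1
    unfold trPoly
    have h3 := eq_mkPoly hm hdeg
    rw [← h3]
    congr 1
    funext k
    rw [hx k]
  · have h3 := coeff_le_bd hQ hm hdeg hf1 k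
    have h4 : ((|h.coeff k| : ℤ) : ℝ) ≤ (4 : ℝ) ^ g * Real.sqrt ((p ^ (n * m) : ℕ) : ℝ) ^ (g - (k : ℕ)) :=
      le_trans (by exact_mod_cast h3) (bd_le _ _ _)
    have hp0 : (0 : ℝ) < (p : ℝ) ^ height s m (g - k) := pow_pos (by exact_mod_cast hp.pos) _
    have h5 : ((|x k| : ℤ) : ℝ) ≤ (4 : ℝ) ^ g * lam p m n s (g - k) := by
      unfold lam
      rw [← mul_div_assoc, le_div_iff₀ hp0]
      refine le_trans (le_of_eq ?_) h4
      rw [hx k, abs_mul, abs_pow, Nat.abs_cast]
      push_cast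
      ring
    have h6 : ((|x k|).toNat : ℝ) ≤ (4 : ℝ) ^ g * lam p m n s (g - k) := by
      have h7 : (((|x k|).toNat : ℤ) : ℝ) = ((|x k| : ℤ) : ℝ) := by
        rw [Int.toNat_of_nonneg (abs_nonneg _)]
      have h8 : ((|x k|).toNat : ℝ) = ((|x k| : ℤ) : ℝ) := by exact_mod_cast h7
      rw [h8]
      exact h5
    have h7 := Nat.le_floor h6
    unfold bnd
    omega

theorem finite_above (hp : p.Prime) : (weilPolysAbove p m n g s T).Finite :=
  (finite_weilPolys (pow_ne_zero _ hp.ne_zero)).subset fun _ h => h.1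

/-- The polynomials with prescribed coordinates are in the set. -/
theorem mem_above (hp : p.Prime) (hs : IsPolygon n g s T) (hm : 0 < m) (e : Fin g → ℤ)
    (he : ∀ k, |(e k : ℝ)| ≤ lam p m n s (g - k) / 2 ^ g) (hep : ∀ k, ¬ (p : ℤ) ∣ e k) :
    weil (p ^ (n * m)) (mkPoly g (fun k : Fin g => (dick (p ^ (n * m)) g).coeff k +
      (p : ℤ) ^ height s m (g - k) * e k)) ∈ weilPolysAbove p m n g s T := by
  have hQ : 0 < p ^ (n * m) := pow_pos hp.pos _
  set h : ℤ[X] := mkPoly g (fun k : Fin g => (dick (p ^ (n * m)) g).coeff k +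
      (p : ℤ) ^ height s m (g - k) * e k) with hh
  have hdeg : h.natDegree = g := mkPoly_natDegree g _
  have hmon : h.Monic := mkPoly_monic g _
  have hcoef : ∀ k (h0 : 0 < k) (hk : k ≤ g), h.coeff (g - k) = (dick (p ^ (n * m)) g).coeff (g - k) +
      (p : ℤ) ^ height s m k * e ⟨g - k, by omega⟩ := by
    intro k h0 hk
    have h1 := mkPoly_coeff g (fun k : Fin g => (dick (p ^ (n * m)) g).coeff k +
      (p : ℤ) ^ height s m (g - k) * e k) ⟨g - k, by omega⟩
    rw [hh, h1]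
    simp only
    rw [show g - (g - k) = k by omega]
  have hdick : ∀ k, k ≤ g → (p : ℤ) ^ (n * m * ((k + 1) / 2)) ∣ (dick (p ^ (n * m)) g).coeff (g - k) := by
    intro k hk
    have h1 := (dick_coeff (p ^ (n * m)) g).1 k hk
    rwa [Nat.cast_pow, ← pow_mul] at h1
  have hdvd : ∀ k ≤ g, (p : ℤ) ^ height s m k ∣ h.coeff (g - k) := by
    intro k hk
    rcases Nat.eq_zero_or_pos k with rfl | h0
    · rw [height_zero, pow_zero]
      exact one_dvd _
    · rw [hcoef k h0 hk]
      exact dvd_add ((pow_dvd_pow _ (height_le_half hs m hk)).trans (hdick k hk))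
        (Dvd.intro _ rfl)
  refine ⟨mem_weilPolys hQ hmon hdeg ?_, ?_, ?_⟩
  · refine real_roots hQ hs.pos _ fun k => ?_
    rw [add_sub_cancel_left]
    have h1 := he k
    have hp0 : (0 : ℝ) < (p : ℝ) ^ height s m (g - k) := pow_pos (by exact_mod_cast hp.pos) _
    unfold lam at h1
    rw [div_div, le_div_iff₀ (by positivity)] at h1
    rw [le_div_iff₀ (by positivity)]
    push_cast
    push_cast at h1
    rw [abs_mul, abs_pow, Nat.abs_cast]
    linarith
  · exact (dvd_iff (p := p) (M := n * m) (c := height s m) hdeg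
      fun k t hk _ ht => height_le hs m hk ht).2 hdvd
  · intro k hk
    obtain ⟨h0, hkg, -, -⟩ := hs.vertex k hk
    rw [touch_iff (p := p) (M := n * m) (c := height s m) hdeg hdvd hkg
      fun t h1 h2 => height_lt hs hm hk h1 h2]
    intro h1
    rw [hcoef k h0 hkg] at h1
    have h2 := (pow_dvd_pow (p : ℤ) (height_lt_half hs hm hk)).trans (hdick k hkg)
    have h3 := (dvd_add_right h2).1 h1
    rw [pow_succ] at h3
    exact hep _ ((mul_dvd_mul_iff_left (pow_ne_zero _ (by exact_mod_cast hp.ne_zero))).1 h3)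

/-- **The lower bound for the number of the polynomials.** -/
theorem above_lower (hp : p.Prime) (hs : IsPolygon n g s T) (hm : 0 < m)
    (hlam : ∀ k, 0 < k → k ≤ g → (2 : ℝ) ^ g ≤ lam p m n s k) :
    ∏ k : Fin g, lam p m n s (g - k) ≤
      (4 * 2 ^ g) ^ g * ((weilPolysAbove p m n g s T).ncard : ℝ) := by
  classical
  let L : Fin g → ℝ := fun k => lam p m n s (g - k) / 2 ^ g
  have hL1 : ∀ k, 1 ≤ L k := by
    intro k
    simp only [L]
    rw [le_div_iff₀ (by positivity), one_mul]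
    exact hlam _ (by omega) (by omega)
  let E : Fin g → Finset ℤ := fun k =>
    ((Finset.Icc 1 ⌊L k⌋₊).filter (fun e => ¬ p ∣ e)).map Nat.castEmbedding
  have hE : ∀ k, ∀ e ∈ E k, |(e : ℝ)| ≤ L k ∧ ¬ (p : ℤ) ∣ e := by
    intro k e he
    simp only [E, Finset.mem_map, Finset.mem_filter, Finset.mem_Icc] at he
    obtain ⟨a, ⟨⟨h1, h2⟩, h3⟩, rfl⟩ := he
    have h4 : (a : ℝ) ≤ L k := (Nat.le_floor_iff (zero_le_one.trans (hL1 k))).1 h2
    refine ⟨by simpa using h4, ?_⟩
    rw [Nat.castEmbedding_apply]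
    intro h10
    exact h3 (by exact_mod_cast h10)
  let F : (Fin g → ℤ) → ℤ[X] := fun e => weil (p ^ (n * m)) (mkPoly g (fun k : Fin g =>
    (dick (p ^ (n * m)) g).coeff k + (p : ℤ) ^ height s m (g - k) * e k))
  have hinj : Function.Injective F := by
    intro e e' hee
    have h1 := weil_injective (pow_ne_zero _ hp.ne_zero) (mkPoly_natDegree g _)
      (mkPoly_natDegree g _) hee
    have h2 := mkPoly_injective g h1
    funext k
    have h3 := congrFun h2 k
    simp only [add_right_inj] at h3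
    exact mul_left_cancel₀ (pow_ne_zero _ (by exact_mod_cast hp.ne_zero)) h3
  have hcard : (Fintype.piFinset E).card ≤ (weilPolysAbove p m n g s T).ncard := by
    rw [← Set.ncard_coe_finset, ← Set.ncard_image_of_injective _ hinj]
    refine Set.ncard_le_ncard ?_ (finite_above hp)
    rintro _ ⟨e, he, rfl⟩
    have he' : ∀ k, e k ∈ E k := Fintype.mem_piFinset.1 (by simpa using he)
    exact mem_above hp hs hm e (fun k => (hE k _ (he' k)).1) (fun k => (hE k _ (he' k)).2)
  have hEcard : ∀ k : Fin g, lam p m n s (g - k) ≤ (4 * 2 ^ g) * ((E k).card : ℝ) := by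
    intro k
    simp only [E, Finset.card_map]
    have h1 := card_prime_to p ⌊L k⌋₊ hp
    have h3 := Nat.lt_floor_add_one (L k)
    have h4 : (1 : ℝ) ≤ (⌊L k⌋₊ : ℝ) := by
      have h5 : 1 ≤ ⌊L k⌋₊ := (Nat.le_floor_iff (zero_le_one.trans (hL1 k))).2 (by
        simpa using hL1 k)
      exact_mod_cast h5
    have h5 : (⌊L k⌋₊ : ℝ) ≤
        2 * (((Finset.Icc 1 ⌊L k⌋₊).filter (fun e => ¬ p ∣ e)).card : ℝ) := by
      exact_mod_cast h1
    have h6 : L k ≤ 4 * (((Finset.Icc 1 ⌊L k⌋₊).filter (fun e => ¬ p ∣ e)).card : ℝ) := by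
      linarith
    have h7 : lam p m n s (g - k) = 2 ^ g * L k := by
      simp only [L]
      field_simp
    rw [h7]
    have h8 : (0 : ℝ) < 2 ^ g := by positivity
    nlinarith
  calc ∏ k : Fin g, lam p m n s (g - k) ≤ ∏ k : Fin g, ((4 * 2 ^ g) * ((E k).card : ℝ)) :=
        Finset.prod_le_prod (fun k _ => (lam_pos hp _).le) fun k _ => hEcard k
    _ = (4 * 2 ^ g) ^ g * ((Fintype.piFinset E).card : ℝ) := by
        rw [Finset.prod_mul_distrib, Fintype.card_piFinset, Finset.prod_const, Finset.card_univ,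
          Fintype.card_fin]
        push_cast
        rfl
    _ ≤ (4 * 2 ^ g) ^ g * ((weilPolysAbove p m n g s T).ncard : ℝ) := by
        have h1 : ((Fintype.piFinset E).card : ℝ) ≤ ((weilPolysAbove p m n g s T).ncard : ℝ) := by
          exact_mod_cast hcard
        exact mul_le_mul_of_nonneg_left h1 (by positivity)

/-- The sizes of the coefficients tend to infinity. -/
theorem lam_large (hp : p.Prime) (hs : IsPolygon n g s T) (B : ℝ) : ∃ m₀ : ℕ, ∀ m ≥ m₀,
    ∀ k, 0 < k → k ≤ g → B ≤ lam p m n s k := by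
  have hδ : (0 : ℝ) < ((n / 2 - s 0 : ℚ) : ℝ) := by
    have := hs.lt_half
    exact_mod_cast (by linarith : (0 : ℚ) < n / 2 - s 0)
  set δ : ℝ := ((n / 2 - s 0 : ℚ) : ℝ) with hδd
  have hp1 : (1 : ℝ) < p := by exact_mod_cast hp.one_lt
  have hp0 : (0 : ℝ) < p := by linarith
  have key : ∀ m k : ℕ, 0 < k → k ≤ g → (p : ℝ) ^ (m * δ - 1 : ℝ) ≤ lam p m n s k := by
    intro m k h0 hk
    unfold lam
    have h1 : Real.sqrt ((p ^ (n * m) : ℕ) : ℝ) ^ k = (p : ℝ) ^ (m * (n * k / 2) : ℝ) := by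
      rw [Real.sqrt_eq_rpow]
      push_cast
      rw [← Real.rpow_natCast (p : ℝ) (n * m), ← Real.rpow_mul hp0.le, ← Real.rpow_natCast,
        ← Real.rpow_mul hp0.le]
      congr 1
      push_cast
      ring
    rw [h1, ← Real.rpow_natCast (p : ℝ) (height s m k), ← Real.rpow_sub hp0]
    refine Real.rpow_le_rpow_of_exponent_le hp1.le ?_
    have h2 := height_gap hs m h0 hk
    have h3 : ((height s m k : ℚ) : ℝ) ≤
        ((m * (n * k / 2 : ℚ) - m * (n / 2 - s 0 : ℚ) + 1 : ℚ) : ℝ) := by exact_mod_cast h2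
    rw [hδd]
    push_cast at h3 ⊢
    linarith
  have hlim : Filter.Tendsto (fun m : ℕ => (p : ℝ) ^ (m * δ - 1 : ℝ)) Filter.atTop
      Filter.atTop := by
    have h1 : Filter.Tendsto (fun m : ℕ => (m * δ - 1 : ℝ)) Filter.atTop Filter.atTop :=
      Filter.tendsto_atTop_add_const_right _ _
        (Filter.Tendsto.atTop_mul_const hδ tendsto_natCast_atTop_atTop)
    have h2 : Filter.Tendsto (fun x : ℝ => Real.exp (Real.log p * x)) Filter.atTop Filter.atTop :=
      Real.tendsto_exp_atTop.comp (Filter.Tendsto.const_mul_atTop (Real.log_pos hp1)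
        Filter.tendsto_id)
    refine (h2.comp h1).congr fun m => ?_
    rw [Function.comp_apply, Real.rpow_def_of_pos hp0]
  obtain ⟨m₀, hm₀⟩ := Filter.eventually_atTop.1 (hlim.eventually_ge_atTop B)
  exact ⟨m₀, fun m hm k h0 hk => (hm₀ m hm).trans (key m k h0 hk)⟩

end Pool.Agent.H28.HP
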