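import Mathlib

/-!
# Weil polynomials of any weight with a given Newton polygon: definitions
-/

set_option autoImplicit false

namespace Pool.Agent.H28.HP

open Polynomial

/-- The ordinate at `k` of the polygon with the slopes `s 0`, `s 1`, .... -/
def ordinate (s : ℕ → ℚ) (k : ℕ) : ℚ := ∑ j ∈ Finset.range k, s j

/-- `s 0 ≤ ... ≤ s (g - 1) ≤ n / 2` are the first `g` slopes of a symmetric polygon of length
`2 g` (the other slopes are `n - s (g - 1) ≤ ... ≤ n - s 0`); not all of its slopes are `n / 2`.
The set `T` consists of some `k` with `0 < k ≤ g` such that the ordinate of the polygon at `k` is an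
integer, and the slope before `k` is less than `n / 2` (for instance any vertex of the Newton
polygon of an `F`-crystal with `k ≤ g`, where the slope before `k` is less than `n / 2`). -/
structure IsPolygon (n g : ℕ) (s : ℕ → ℚ) (T : Set ℕ) : Prop where
  pos : 0 < g
  nonneg : ∀ j < g, 0 ≤ s j
  mono : ∀ i j, i ≤ j → j < g → s i ≤ s j
  le_half : ∀ j < g, s j ≤ n / 2
  lt_half : s 0 < n / 2
  vertex : ∀ k ∈ T, 0 < k ∧ k ≤ g ∧ s (k - 1) < n / 2 ∧ ∃ z : ℤ, ordinate s k = z

/-- The least integer which is at least `m` times the ordinate of the polygon at `k`. -/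
def height (s : ℕ → ℚ) (m k : ℕ) : ℕ := ⌈(m : ℚ) * ordinate s k⌉₊

/-- The polynomials `f` of degree `2 g` with integral coefficients, leading coefficient one and
constant term `q ^ g`, all of whose complex roots have absolute value `√q`. -/
def rootPolys (q g : ℕ) : Set ℤ[X] :=
  {f | f.Monic ∧ f.natDegree = 2 * g ∧ f.coeff 0 = (q : ℤ) ^ g ∧
    ∀ z : ℂ, aeval z f = 0 → ‖z‖ ^ 2 = q}

/-- The monic polynomials `f` with integral coefficients of degree `2 g`, with constant term
`p ^ (n m g)`, all of whose complex roots have the absolute value `p ^ (n m / 2)`, and whose Newton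
polygon (with respect to the valuation for which `q = p ^ m` has the valuation one) is nowhere
below the polygon with the slopes `s`, and passes through the points of this polygon at the
elements of `T`: the coefficient of index `2 g - k` has a valuation which is at least the ordinate
at `k` of the polygon, and equal to it if `k` is in `T`. (By the functional equation it is enough to
consider `k ≤ g`.) -/
def weilPolysAbove (p m n g : ℕ) (s : ℕ → ℚ) (T : Set ℕ) : Set ℤ[X] :=
  {f ∈ rootPolys (p ^ (n * m)) g | (∀ k ≤ g, (p : ℤ) ^ height s m k ∣ f.coeff (2 * g - k)) ∧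
    ∀ k ∈ T, ¬ (p : ℤ) ^ (height s m k + 1) ∣ f.coeff (2 * g - k)}

end Pool.Agent.H28.HP
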