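import Pool.Graph.R_seed8.W458.MF.Defs
import Pool.Graph.R_seed8.TH132.P.Defs

/-!
# Varieties with a given characteristic polynomial of Frobenius: definitions
-/

set_option autoImplicit false

universe u v

namespace Pool.Agent.H28.HP

open CategoryTheory AlgebraicGeometry Polynomial
  Pool.Agent.W458.MF Pool.Agent.W458.RK Pool.Agent.H914 Pool.Agent.W534
  Pool.Agent.H281R3.HT Pool.Agent.TH132.P VarClass Obj WeilCohomology

/-- The variety `P.obj` has dimension `n`, the endomorphism `P.fr` is a Frobenius endomorphism of
`P.obj` over the field with `p ^ m` elements, the cohomology of `P.obj` is the sum of the pull-back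
of the cohomology of `Y` and of the subspace `P.sub` of the cohomology of degree `n`, and the
characteristic polynomial of `P.fr` on `P.sub` is `f`. (The polynomial `P.pol` plays no role.) -/
structure HasPolynomial {k : Type u} [Field k] {𝒱 : VarClass k} {ops : CycleOps 𝒱}
    {W : WeilCohomology.{u, v} ops} {Y : 𝒱.Obj} {p : ℕ} (P : Piece W Y) (Φ : FrobSystem W p)
    (m n : ℕ) (f : ℤ[X]) : Prop where
  dim : P.obj.dim = n
  frobenius : P.IsFrobenius Φ m
  sub_le : P.sub ≤ W.gr P.obj n
  generated : P.Generated
  charpoly : P.charpoly = f.map (Int.castRingHom W.K)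

/-- For **all** varieties `U` with the Riemann hypothesis such that the eigenvalues of the Frobenius
endomorphism on the cohomology of `U` have rank at most `r` over `E`, with the defects `δ j` in
the formula of Tate in codimension `j`, the Riemann hypothesis holds for `X × U`, and for all
`c ≤ dim (X × U)`:

* the rank of the cycles of codimension `c` on `X × U` modulo numerical equivalence is the sum over
  `i + j = c` of the products of the ranks for `X` in codimension `i` and for `U` in codimension
  `j`;
* the defect of `X × U` in codimension `c` is the sum over `i + j = c` of the products of the rank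
  for `X` in codimension `i` and of the defect `δ j`;
* so the formula of Tate holds for `X × U` in codimension `c` if and only if it holds for `U` in
  codimension `j` for all `i + j = c` such that there are cycles of codimension `i` on `X` which
  are not numerically trivial. -/
def ProductsWith {k : Type u} [Field k] {𝒱 : VarClass k} {ops : CycleOps 𝒱}
    {W : WeilCohomology.{u, v} ops} {p : ℕ} (Φ : FrobSystem W p) (σ : W.K →+* ℂ) (E : Subfield ℂ)
    (r : ℕ) (X : 𝒱.Obj) : Prop :=
  ∀ U : 𝒱.Obj, RiemannHyp Φ σ U → EigenvaluesOfRank σ E r (W.map (Φ.Fr U)).toLinearMap →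
    RiemannHyp Φ σ (X.prod U) ∧
    ∃ δ : ℕ → ℕ, (∀ j ≤ U.dim, PoleDefect Φ σ U j (δ j)) ∧ ∀ c ≤ (X.prod U).dim,
      numRank ops (X.prod U) c = conv X.dim U.dim (numRank ops X) (numRank ops U) c ∧
      PoleDefect Φ σ (X.prod U) c (conv X.dim U.dim (numRank ops X) δ c) ∧
      (PoleFormula Φ σ (X.prod U) c ↔ ∀ i ≤ X.dim, ∀ j ≤ U.dim, i + j = c →
        numRank ops X i ≠ 0 → PoleFormula Φ σ U j)

/-- **All** products of varieties with the polynomials `f i` satisfy the formula of Tate: for every
Weil cohomology `W` with algebraically closed coefficients for varieties over a field `k`, for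
every system `Φ` of Frobenius endomorphisms in characteristic `p` (so `k` is an algebraic closure
of a finite field), for every variety `Y` whose cohomology is spanned by algebraic classes, and all
varieties `P i` over `Y` of dimension `n i` with a model over the field with `p ^ m` elements,
whose cohomology is the sum of the pull-back of the cohomology of `Y` and of a subspace of the
cohomology of degree `n i`, on which the Frobenius endomorphism has the characteristic polynomial
`f i`: all products `X` of copies of `Y` and of the varieties `P i` satisfy the Riemann hypothesis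
and the formula of Tate in all codimensions, and the formulas for the products `X × U` with all
varieties `U` of rank at most `r` over `E` (`ProductsWith`). -/
def AllProducts {I : Type} (p m : ℕ) (n : I → ℕ) (E : Subfield ℂ) (r : ℕ) (f : I → ℤ[X]) : Prop :=
  ∀ {k : Type u} [Field k] {𝒱 : VarClass k} {ops : CycleOps 𝒱}
    (W : WeilCohomology.{u, v} ops) [IsAlgClosed W.K] (σ : W.K →+* ℂ) (Φ : FrobSystem W p)
    (Y : 𝒱.Obj), (∀ x : W.H Y, x ∈ algSpan W Y) →
      ∀ P : I → Piece W Y, (∀ i, HasPolynomial (P i) Φ m (n i) (f i)) →
        ∀ X : 𝒱.Obj, IsProductOf ({Y} ∪ Set.range fun i => (P i).obj) X →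
          RiemannHyp Φ σ X ∧ (∀ j ≤ X.dim, PoleFormula Φ σ X j) ∧ ProductsWith Φ σ E r X

end Pool.Agent.H28.HP
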