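import Pool.Agent.H28.HP.RH

/-!
# The Riemann hypothesis for the varieties with a given characteristic polynomial
-/

set_option autoImplicit false

open CategoryTheory AlgebraicGeometry Polynomial

universe u v

namespace Pool.Agent.H28.HP

open Pool.Agent.H914 Pool.Agent.H914.VarClass Pool.Agent.H914.VarClass.Obj
  Pool.Agent.H914.WeilCohomology Pool.Agent.H281R3.HT Pool.Agent.W534
  Pool.Agent.W458.RK Pool.Agent.W458.MF Pool.Agent.W536.RR

variable {k : Type u} [Field k] {𝒱 : VarClass k} {ops : CycleOps 𝒱}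
  {W : WeilCohomology.{u, v} ops} {p : ℕ} {Φ : FrobSystem W p}
  {σ : W.K →+* ℂ} {X Y : 𝒱.Obj}

/-- All roots have the same absolute value. -/
def PurePoly (σ : W.K →+* ℂ) (c : ℝ) (A : W.K[X]) : Prop :=
  ∀ κ : W.K, A.eval κ = 0 → ‖σ κ‖ ^ 2 = c

lemma PurePoly.mul {c : ℝ} {A B : W.K[X]} (hA : PurePoly σ c A) (hB : PurePoly σ c B) :
    PurePoly σ c (A * B) := by
  intro κ hκ
  rw [eval_mul] at hκ
  rcases mul_eq_zero.1 hκ with h | h
  · exact hA κ h
  · exact hB κ h

lemma PurePoly.one (c : ℝ) : PurePoly σ c (1 : W.K[X]) := by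
  intro κ hκ
  rw [eval_one] at hκ
  exact absurd hκ one_ne_zero

lemma frob_one_eq : frob Φ X 1 = (W.map (Φ.Fr X)).toLinearMap := by
  apply LinearMap.ext
  intro x
  rw [frob_apply, W534.map_iter]
  rfl

/-- Algebraic classes. -/
theorem exists_pure_alg (i : ℕ) {Z : 𝒱.Obj} {x : W.H Z} (hx : x ∈ algSpan W Z) :
    ∃ A : W.K[X], PurePoly σ ((card Φ Z 1 : ℝ) ^ i) A ∧
      aeval (W.map (Φ.Fr Z)).toLinearMap A (proj (W.isInternal Z) i x) = 0 := by
  refine algSpan_induction (p := fun x => ∃ A : W.K[X], PurePoly σ ((card Φ Z 1 : ℝ) ^ i) A ∧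
      aeval (W.map (Φ.Fr Z)).toLinearMap A (proj (W.isInternal Z) i x) = 0) ?_ ?_ ?_ ?_ hx
  · exact ⟨1, PurePoly.one _, by rw [map_zero, map_zero]⟩
  · rintro a b ⟨g, hg, ha⟩ ⟨g', hg', hb⟩
    refine ⟨g * g', hg.mul hg', ?_⟩
    rw [map_add, map_add]
    have e1 : aeval (W.map (Φ.Fr Z)).toLinearMap (g * g') (proj (W.isInternal Z) i b) = 0 := by
      rw [map_mul, Module.End.mul_apply, hb, map_zero]
    have e2 : aeval (W.map (Φ.Fr Z)).toLinearMap (g * g') (proj (W.isInternal Z) i a) = 0 := by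
      rw [mul_comm, map_mul, Module.End.mul_apply, ha, map_zero]
    rw [e1, e2, add_zero]
  · rintro r a ⟨g, hg, ha⟩
    exact ⟨g, hg, by rw [map_smul, map_smul, ha, smul_zero]⟩
  · intro j z hz
    by_cases hij : 2 * j = i
    swap
    · exact ⟨1, PurePoly.one _, by rw [proj_ne _ (W.cl_mem hz) hij, map_zero]⟩
    subst hij
    rw [proj_same _ (W.cl_mem hz)]
    obtain ⟨s, hs, h⟩ := Φ.cyc hz
    refine ⟨X ^ s - C ((p : W.K) ^ (Φ.e Z * s * j)), ?_, ?_⟩
    · intro κ hκ
      rw [eval_sub, eval_pow, eval_X, eval_C, sub_eq_zero] at hκ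
      have h1 := congrArg (fun t => ‖σ t‖) hκ
      simp only [map_pow, norm_pow, map_natCast, Complex.norm_natCast] at h1
      have h2 : (‖σ κ‖ ^ 2) ^ s = ((card Φ Z 1 : ℝ) ^ (2 * j)) ^ s := by
        rw [← pow_mul, mul_comm 2 s, pow_mul, h1]
        simp only [W534.card, mul_one]
        push_cast
        rw [← pow_mul, ← pow_mul, ← pow_mul]
        congr 1
        ring
      exact (pow_left_inj₀ (by positivity) (by positivity) hs.ne').1 h2
    · rw [map_sub, map_pow, aeval_X, LinearMap.sub_apply, sub_eq_zero]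
      have e1 : ((W.map (Φ.Fr Z)).toLinearMap ^ s) (W.cl Z z) =
          W.map (W534.iter (Φ.Fr Z) s) (W.cl Z z) := by
        rw [W534.map_iter, Module.End.pow_apply]
        rfl
      rw [e1, h, aeval_C]
      rw [Algebra.algebraMap_eq_smul_one, LinearMap.smul_apply, Module.End.one_apply]

/-- The polynomial of a restriction. -/
lemma aeval_restrict' {K V : Type*} [Field K] [AddCommGroup V] [Module K V] {T : Module.End K V}
    {S : Submodule K V} (h : ∀ x ∈ S, T x ∈ S) (q : K[X]) (x : S) :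
    ((aeval (T.restrict h) q x : S) : V) = aeval T q (x : V) := by
  induction q using Polynomial.induction_on' with
  | add a b ha hb =>
    rw [map_add, map_add, LinearMap.add_apply, LinearMap.add_apply, Submodule.coe_add, ha, hb]
  | monomial n a =>
    rw [aeval_monomial, aeval_monomial, Module.End.mul_apply, Module.End.mul_apply,
      Module.algebraMap_end_apply, Module.algebraMap_end_apply, Submodule.coe_smul]
    congr 1
    induction n generalizing x with
    | zero => simp
    | succ n ih =>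
      rw [pow_succ, Module.End.mul_apply, pow_succ, Module.End.mul_apply, ih]
      rfl

/-- The classes in the subspace. -/
theorem exists_pure_sub [IsAlgClosed W.K] {m n g : ℕ} (hg : 0 < g)
    {P : Piece W Y} {f : ℤ[X]} (hf : f ∈ rootPolys (p ^ (n * m)) g)
    (hP : HasPolynomial P Φ m n f) {x : W.H P.obj} (hx : x ∈ P.sub) :
    ∃ A : W.K[X], PurePoly σ ((card Φ P.obj 1 : ℝ) ^ n) A ∧
      aeval (W.map (Φ.Fr P.obj)).toLinearMap A x = 0 := by
  classical
  obtain ⟨a, b, ha, hb, hab, hiter⟩ := hP.frobenius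
  set F : Module.End W.K (W.H P.obj) := (W.map P.fr).toLinearMap with hF
  set T : Module.End W.K (W.H P.obj) := (W.map (Φ.Fr P.obj)).toLinearMap with hT
  have hFT : F ^ a = T ^ b := by
    apply LinearMap.ext
    intro y
    have h1 : W.map (W534.iter P.fr a) y = W.map (W534.iter (Φ.Fr P.obj) b) y := by rw [hiter]
    rw [W534.map_iter, W534.map_iter] at h1
    rw [Module.End.pow_apply, Module.End.pow_apply]
    exact h1
  have hstable : ∀ x ∈ P.sub, F x ∈ P.sub := by
    by_contra hcon
    have h1 := hP.charpoly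
    have h2 : P.charpoly = 1 := by
      unfold Piece.charpoly charpolyOn
      exact dif_neg hcon
    rw [h2] at h1
    have h3 := congrArg Polynomial.natDegree h1
    rw [natDegree_one, hf.1.natDegree_map, hf.2.1] at h3
    omega
  have hchar : (F.restrict hstable).charpoly = f.map (Int.castRingHom W.K) := by
    rw [← hP.charpoly]
    unfold Piece.charpoly charpolyOn
    rw [dif_pos hstable]
  have hkill : aeval F (f.map (Int.castRingHom W.K)) x = 0 := by
    rw [← aeval_restrict' hstable _ ⟨x, hx⟩, ← hchar, LinearMap.aeval_self_charpoly]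
    rfl
  set rts := (f.map (Int.castRingHom W.K)).roots with hrts
  have hprod : f.map (Int.castRingHom W.K) = (rts.map fun t => X - C t).prod :=
    (IsAlgClosed.splits _).eq_prod_roots_of_monic (hf.1.map _)
  refine ⟨(rts.map fun t => X ^ b - C (t ^ a)).prod, ?_, ?_⟩
  · intro κ hκ
    rw [eval_multiset_prod, Multiset.map_map, Multiset.prod_eq_zero_iff] at hκ
    obtain ⟨t, ht, h0⟩ := Multiset.mem_map.1 hκ
    simp only [Function.comp_apply, eval_sub, eval_pow, eval_X, eval_C, sub_eq_zero] at h0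
    have h1 := (mem_roots'.1 ht).2
    rw [IsRoot.def, Polynomial.eval_map] at h1
    have h2 := hf.2.2.2 (σ t) (aeval_sigma σ h1)
    have h3 : ‖σ κ‖ ^ b = ‖σ t‖ ^ a := by
      rw [← norm_pow, ← norm_pow, ← map_pow, ← map_pow, h0]
    have h4 : (‖σ κ‖ ^ 2) ^ b = ((card Φ P.obj 1 : ℝ) ^ n) ^ b := by
      calc (‖σ κ‖ ^ 2) ^ b = (‖σ κ‖ ^ b) ^ 2 := by rw [← pow_mul, ← pow_mul, mul_comm]
        _ = (‖σ t‖ ^ 2) ^ a := by rw [h3, ← pow_mul, ← pow_mul, mul_comm]
        _ = ((card Φ P.obj 1 : ℝ) ^ n) ^ b := by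
          rw [h2]
          simp only [W534.card, mul_one]
          push_cast
          rw [← pow_mul, ← pow_mul, ← pow_mul]
          congr 1
          calc n * m * a = n * (a * m) := by ring
            _ = _ := by rw [hab]; ring
    exact (pow_left_inj₀ (by positivity) (by positivity) hb.ne').1 h4
  · have e1 : aeval T (rts.map fun t => (X ^ b - C (t ^ a) : W.K[X])).prod =
        aeval F (rts.map fun t => (X ^ a - C (t ^ a) : W.K[X])).prod := by
      generalize rts = S
      induction S using Multiset.induction with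
      | empty => rw [Multiset.map_zero, Multiset.map_zero, Multiset.prod_zero, map_one, map_one]
      | cons t S ih =>
        have e3 : aeval T (X ^ b - C (t ^ a) : W.K[X]) = aeval F (X ^ a - C (t ^ a) : W.K[X]) := by
          simp only [map_sub, map_pow, aeval_X, aeval_C, hFT]
        rw [Multiset.map_cons, Multiset.map_cons, Multiset.prod_cons, Multiset.prod_cons, map_mul,
          map_mul, ih, e3]
    have e2 : f.map (Int.castRingHom W.K) ∣ (rts.map fun t => (X ^ a - C (t ^ a) : W.K[X])).prod := by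
      rw [hprod]
      refine Multiset.prod_dvd_prod_of_dvd _ _ fun t _ => ?_
      rw [map_pow]
      exact sub_dvd_pow_sub_pow _ _ _
    obtain ⟨B, hB⟩ := e2
    rw [e1, hB, mul_comm, map_mul, Module.End.mul_apply, hkill, map_zero]

/-- From a polynomial to the eigenvalues. -/
lemma norm_of_pure {c : ℝ} {A : W.K[X]} (hA : PurePoly σ c A) {y : W.H X} (hy : y ≠ 0) {ν : W.K}
    (hν : frob Φ X 1 y = ν • y) (h : aeval (W.map (Φ.Fr X)).toLinearMap A y = 0) :
    ‖σ ν‖ ^ 2 = c := by
  rw [frob_one_eq] at hν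
  have h1 : Module.End.HasEigenvector (W.map (Φ.Fr X)).toLinearMap ν y :=
    ⟨Module.End.mem_eigenspace_iff.2 hν, hy⟩
  have h2 := Module.End.aeval_apply_of_hasEigenvector (p := A) h1
  rw [h] at h2
  exact hA ν ((smul_eq_zero.1 h2.symm).resolve_right hy)

theorem eigRH_Y [IsAlgClosed W.K] (hY : ∀ x : W.H Y, x ∈ algSpan W Y) :
    EigRH Φ σ Y := by
  refine eigRH_of_one fun i y hy hy0 ν hν => ?_
  obtain ⟨A, hA, h⟩ := exists_pure_alg (Φ := Φ) (σ := σ) i (hY y)
  rw [proj_same _ hy] at h
  exact norm_of_pure hA hy0 hν h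

theorem eigRH_piece [IsAlgClosed W.K] {m n g : ℕ} (hg : 0 < g)
    (hY : ∀ x : W.H Y, x ∈ algSpan W Y) {P : Piece W Y} {f : ℤ[X]}
    (hf : f ∈ rootPolys (p ^ (n * m)) g) (hP : HasPolynomial P Φ m n f) : EigRH Φ σ P.obj := by
  refine eigRH_of_one fun i y hy hy0 ν hν => ?_
  obtain ⟨w, hw⟩ := hP.generated y
  obtain ⟨A, hA, h⟩ := exists_pure_alg (Φ := Φ) (σ := σ) (Z := P.obj) i
    (algSpan_map P.mor (hY w))
  have hdec : proj (W.isInternal P.obj) i (W.map P.mor w) +
      proj (W.isInternal P.obj) i (y - W.map P.mor w) = y := by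
    rw [← map_add, add_sub_cancel, proj_same _ hy]
  by_cases hi : n = i
  · subst hi
    rw [proj_same _ (hP.sub_le hw)] at hdec
    obtain ⟨B, hB, h'⟩ := exists_pure_sub (σ := σ) hg hf hP hw
    refine norm_of_pure (hA.mul hB) hy0 hν ?_
    rw [← hdec, map_add]
    have e1 : aeval (W.map (Φ.Fr P.obj)).toLinearMap (A * B) (y - W.map P.mor w) = 0 := by
      rw [map_mul, Module.End.mul_apply, h', map_zero]
    have e2 : aeval (W.map (Φ.Fr P.obj)).toLinearMap (A * B)
        (proj (W.isInternal P.obj) n (W.map P.mor w)) = 0 := by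
      rw [mul_comm, map_mul, Module.End.mul_apply, h, map_zero]
    rw [e1, e2, add_zero]
  · rw [proj_ne _ (hP.sub_le hw) hi, add_zero] at hdec
    rw [hdec] at h
    exact norm_of_pure hA hy0 hν h

/-- **The Riemann hypothesis for all products.** -/
theorem eigRH_products [IsAlgClosed W.K] {I : Type} {m : ℕ} {n g : I → ℕ}
    (hg : ∀ i, 0 < g i) (hY : ∀ x : W.H Y, x ∈ algSpan W Y) {P : I → Piece W Y}
    {f : I → ℤ[X]} (hf : ∀ i, f i ∈ rootPolys (p ^ (n i * m)) (g i))
    (hP : ∀ i, HasPolynomial (P i) Φ m (n i) (f i))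
    (hX : IsProductOf ({Y} ∪ Set.range fun i => (P i).obj) X) : EigRH Φ σ X := by
  induction hX with
  | base h =>
    rcases h with h | ⟨i, rfl⟩
    · rw [Set.mem_singleton_iff] at h
      subst h
      exact eigRH_Y hY
    · exact eigRH_piece (hg i) hY (hf i) (hP i)
  | prod _ _ h1 h2 => exact eigRH_prod h1 h2

end Pool.Agent.H28.HP
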