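import Pool.Agent.H28.HP.Num
import Pool.Agent.H28.HP.Weights
import Pool.Graph.R_seed8.TH132.P.Main

/-!
# The pole formula from balanced relations
-/

set_option autoImplicit false

universe u v

namespace Pool.Agent.H28.HP

open CategoryTheory AlgebraicGeometry Polynomial NumberField
  Pool.Agent.W521.Frob Pool.Agent.W458.MF Pool.Agent.W458.RK Pool.Agent.H914 Pool.Agent.W534
  Pool.Agent.H281R3.HT Pool.Agent.W536.RR Pool.Agent.TH132.P Pool.Agent.TH132.A Pool.Agent.W552
  Pool.Agent.H447 VarClass Obj WeilCohomology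

/-! ### Changing the polynomial `R` -/

theorem closure_pow {A B : Set ℂ} (h : ∀ z ∈ A, ∃ k : ℕ, 0 < k ∧ z ^ k ∈ Submonoid.closure B)
    {ν : ℂ} (hν : ν ∈ Submonoid.closure A) : ∃ k : ℕ, 0 < k ∧ ν ^ k ∈ Submonoid.closure B := by
  induction hν using Submonoid.closure_induction with
  | mem x hx => exact h x hx
  | one => exact ⟨1, one_pos, by rw [one_pow]; exact Submonoid.one_mem _⟩
  | mul x y _ _ hx hy =>
    obtain ⟨k, hk, h1⟩ := hx
    obtain ⟨l, hl, h2⟩ := hy
    refine ⟨k * l, Nat.mul_pos hk hl, ?_⟩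
    rw [mul_pow, pow_mul, mul_comm k l, pow_mul]
    exact Submonoid.mul_mem _ (Submonoid.pow_mem _ h1 _) (Submonoid.pow_mem _ h2 _)

theorem prod_pow' {I : Type} (l : List (I × ℂ)) (t k : ℕ) :
    (l.map fun x => x.2 ^ t).prod ^ k = (l.map fun x => x.2 ^ (t * k)).prod := by
  induction l with
  | nil => simp
  | cons a l ih => rw [List.map_cons, List.prod_cons, mul_pow, ih, List.map_cons, List.prod_cons,
      pow_mul]

theorem balanced_mono {I : Type} {q : I → ℕ} {h : I → ℤ[X]} {R R' : ℤ[X]}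
    (hR : ∀ z : ℂ, aeval z R' = 0 →
      ∃ k : ℕ, 0 < k ∧ z ^ k ∈ Submonoid.closure {z : ℂ | aeval z R = 0})
    (hb : Balanced q h R) : Balanced q h R' := by
  intro l hl t ht ν hν c hc heq
  obtain ⟨k, hk, h1⟩ := closure_pow hR hν
  refine hb l hl (t * k) (Nat.mul_pos ht hk) (ν ^ k) h1 (c ^ k) (pow_pos hc k) ?_
  rw [← prod_pow', ← mul_pow, heq, Nat.cast_pow]

theorem balancedOver_mono {I : Type} {q : I → ℕ} {h : I → ℤ[X]} {R R' : ℤ[X]} {E : Subfield ℂ}
    {r : ℕ} (hR : ∀ z : ℂ, aeval z R' = 0 →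
      ∃ k : ℕ, 0 < k ∧ z ^ k ∈ Submonoid.closure {z : ℂ | aeval z R = 0})
    (hb : BalancedOver E r q h R) : BalancedOver E r q h R' := by
  intro l hl t ht ν hν ρ hρ a heq
  obtain ⟨k, hk, h1⟩ := closure_pow hR hν
  refine hb l hl (t * k) (Nat.mul_pos ht hk) (ν ^ k) h1 ρ hρ (a * k) ?_
  rw [← prod_pow', pow_mul ρ, ← mul_pow, ← mul_pow, heq, one_pow]

/-! ### Varieties with algebraic cohomology -/

variable {k : Type u} [Field k] {𝒱 : VarClass k} {ops : CycleOps 𝒱}
  {W : WeilCohomology.{u, v} ops} {Y : 𝒱.Obj} {p : ℕ} {Φ : FrobSystem W p}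

/-- All complex roots have a power which is a power of `p`. -/
def PowRoots (p : ℕ) (g : ℤ[X]) : Prop :=
  ∀ z : ℂ, aeval z g = 0 → ∃ a b : ℕ, 0 < a ∧ z ^ a = (p : ℂ) ^ b

theorem PowRoots.mul {g g' : ℤ[X]} (hg : PowRoots p g) (hg' : PowRoots p g') :
    PowRoots p (g * g') := by
  intro z hz
  rw [map_mul] at hz
  rcases mul_eq_zero.1 hz with h | h
  · exact hg z h
  · exact hg' z h

theorem exists_powRoots {x : W.H Y} (hx : x ∈ algSpan W Y) : ∃ g : ℤ[X], PowRoots p g ∧
    aeval (W.map (Φ.Fr Y)).toLinearMap g x = 0 := by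
  refine algSpan_induction (p := fun x => ∃ g : ℤ[X], PowRoots p g ∧
    aeval (W.map (Φ.Fr Y)).toLinearMap g x = 0) ?_ ?_ ?_ ?_ hx
  · refine ⟨1, fun z hz => ?_, by rw [map_zero]⟩
    rw [map_one] at hz
    exact absurd hz one_ne_zero
  · rintro a b ⟨g, hg, ha⟩ ⟨g', hg', hb⟩
    refine ⟨g * g', hg.mul hg', ?_⟩
    have e1 : aeval (W.map (Φ.Fr Y)).toLinearMap (g * g') b = 0 := by
      rw [map_mul, Module.End.mul_apply, hb, map_zero]
    have e2 : aeval (W.map (Φ.Fr Y)).toLinearMap (g * g') a = 0 := by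
      rw [mul_comm, map_mul, Module.End.mul_apply, ha, map_zero]
    rw [map_add, e1, e2, add_zero]
  · rintro r a ⟨g, hg, ha⟩
    exact ⟨g, hg, by rw [map_smul, ha, smul_zero]⟩
  · intro j z hz
    obtain ⟨s, hs, h⟩ := Φ.cyc hz
    refine ⟨X ^ s - C ((p : ℤ) ^ (Φ.e Y * s * j)), ?_, ?_⟩
    · intro w hw
      refine ⟨s, Φ.e Y * s * j, hs, ?_⟩
      rw [map_sub, map_pow, aeval_X, aeval_C, sub_eq_zero] at hw
      rw [hw]
      simp
    rw [map_sub, map_pow, aeval_X, LinearMap.sub_apply, sub_eq_zero]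
    have e1 : ((W.map (Φ.Fr Y)).toLinearMap ^ s) (W.cl Y z) =
        W.map (W534.iter (Φ.Fr Y) s) (W.cl Y z) := by
      rw [W534.map_iter, Module.End.pow_apply]
      rfl
    rw [e1, h, aeval_C]
    rw [Algebra.algebraMap_eq_smul_one, LinearMap.smul_apply, Module.End.one_apply,
      ← Int.cast_smul_eq_zsmul W.K]
    push_cast
    rfl

theorem exists_powRoots_eig (hY : ∀ x : W.H Y, x ∈ algSpan W Y) (μ : W.K)
    (hμ : Module.End.HasEigenvalue (W.map (Φ.Fr Y)).toLinearMap μ) :
    ∃ g : ℤ[X], PowRoots p g ∧ aeval μ g = 0 := by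
  obtain ⟨x, hx⟩ := hμ.exists_hasEigenvector
  obtain ⟨g, hg, h⟩ := exists_powRoots (Φ := Φ) (hY x)
  refine ⟨g, hg, ?_⟩
  have h1 : aeval (W.map (Φ.Fr Y)).toLinearMap (g.map (algebraMap ℤ W.K)) x =
      (g.map (algebraMap ℤ W.K)).eval μ • x :=
    Module.End.aeval_apply_of_hasEigenvector hx
  rw [aeval_map_algebraMap, h, Polynomial.eval_map] at h1
  exact (smul_eq_zero.1 h1.symm).resolve_right hx.2

/-- A polynomial for the eigenvalues on the cohomology of `Y`. -/
theorem exists_RY (hY : ∀ x : W.H Y, x ∈ algSpan W Y) {R : ℤ[X]}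
    (hRp : aeval (p : ℂ) R = 0) : ∃ R' : ℤ[X],
      (∀ μ : W.K, Module.End.HasEigenvalue (W.map (Φ.Fr Y)).toLinearMap μ → aeval μ R' = 0) ∧
      aeval (p : ℂ) R' = 0 ∧ ∀ z : ℂ, aeval z R' = 0 →
        ∃ k : ℕ, 0 < k ∧ z ^ k ∈ Submonoid.closure {z : ℂ | aeval z R = 0} := by
  classical
  have hfin := Module.End.finite_hasEigenvalue (W.map (Φ.Fr Y)).toLinearMap
  choose! γ hγ hγ0 using exists_powRoots_eig (Φ := Φ) hY
  refine ⟨R * ∏ μ ∈ hfin.toFinset, γ μ, ?_, ?_, ?_⟩
  · intro μ hμ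
    rw [map_mul, map_prod, Finset.prod_eq_zero (hfin.mem_toFinset.2 hμ) (hγ0 μ hμ), mul_zero]
  · rw [map_mul, hRp, zero_mul]
  · intro z hz
    rw [map_mul, map_prod] at hz
    rcases mul_eq_zero.1 hz with h | h
    · exact ⟨1, one_pos, by rw [pow_one]; exact Submonoid.subset_closure h⟩
    · obtain ⟨μ, hμ, h1⟩ := Finset.prod_eq_zero_iff.1 h
      obtain ⟨a, b, ha, h2⟩ := hγ μ (hfin.mem_toFinset.1 hμ) z h1
      refine ⟨a, ha, ?_⟩
      rw [h2]
      exact Submonoid.pow_mem _ (Submonoid.subset_closure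
        (show (p : ℂ) ∈ {z : ℂ | aeval z R = 0} from hRp)) _

/-! ### The geometric theorem -/

variable {I : Type} {n g : I → ℕ} {m : ℕ} {σ : W.K →+* ℂ} {R : ℤ[X]} {E : Subfield ℂ} {r : ℕ}

theorem ext_zero' {P : I → Piece W Y} (H : GSetup Φ σ P m R) (i : I) (hP : (P i).IsOver Φ m)
    {x : W.H (P i).obj} (hx : IsExt p (P i) m x) : x = 0 := by
  by_contra h0
  obtain ⟨hxs, n', hn', hx⟩ := hx
  obtain ⟨ρ, hρ, hρ2⟩ : ∃ ρ : W.K, W.map (P i).fr x = ρ • x ∧ ρ ^ 2 = ((P i).Q p m : W.K) := by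
    have e : ((p : W.K) ^ (n' * m)) ^ 2 = ((P i).Q p m : W.K) := by
      rw [Piece.Q, hn', Nat.cast_pow, ← pow_mul]
      congr 1
      ring
    rcases hx with h | h
    · exact ⟨_, h, e⟩
    · exact ⟨_, h, by rw [neg_sq, e]⟩
  have h1 : Module.End.HasEigenvalue
      (((W.map (P i).fr).toLinearMap).restrict hP.stable) ρ := by
    refine Module.End.hasEigenvalue_of_hasEigenvector (x := ⟨x, hxs⟩) ⟨?_, ?_⟩
    · rw [Module.End.mem_eigenspace_iff]
      exact Subtype.ext hρ
    · intro h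
      exact h0 (congrArg Subtype.val h)
  have h2 := (Module.End.hasEigenvalue_iff_isRoot_charpoly _ ρ).1 h1
  rw [hP.charpoly_restrict, IsRoot.def, Polynomial.eval_map] at h2
  exact setup_no H i one_pos ρ h2 (by rw [pow_one, pow_one, hρ2])

/-- **The formula for the defects of the product**, with the Riemann hypothesis for `U` only. -/
theorem productsWith_of_tateTimes [IsAlgClosed W.K] {X : 𝒱.Obj} (hp : 1 < p)
    (hRX : EigRH Φ σ X) (hT : TateTimes Φ σ E r X) : ProductsWith Φ σ E r X := by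
  intro U hRU hU
  have hRH : RiemannHyp Φ σ (X.prod U) :=
    riemannHyp_of_eig (eigRH_prod hRX (eigRH_of_riemannHyp hRU))
  refine ⟨hRH, ?_⟩
  have hD := homEqNum_of_tateTimes hp hT
  obtain ⟨κ, _, _, e, b, d, h⟩ := exists_hFam hD
  have hS : ∀ z, AS W (X.prod U) z → z ∈ tens W X U := fun z hz => tens_of_tateTimes hp hT hU hz
  -- the ranks
  have hrank : ∀ c ≤ (X.prod U).dim, numRank ops (X.prod U) c =
      conv X.dim U.dim (numRank ops X) (numRank ops U) c := by
    intro c hc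
    have h1 := finrank_nul (W := W) (Z := X.prod U) c
    rw [← numRank_eq (W := W) hc, h.nul_eq hS hc, h.span_eq hS,
      h.finrank_combs' hD (fun j hj => nul_bot hj),
      h.finrank_combs' hD (fun j hj => spanCycles_bot hj)] at h1
    have h2 : conv X.dim U.dim (numRank ops X)
        (fun j => Module.finrank W.K (spanCycles W U (j : ℕ))) c =
        conv X.dim U.dim (numRank ops X)
          (fun j => numRank ops U j + Module.finrank W.K (nul W U j)) c :=
      conv_congr (fun _ _ => rfl) fun j hj => by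
        rw [numRank_eq (W := W) hj]
        exact (finrank_nul (W := W) (Z := U) j).symm
    rw [h2, conv_add] at h1
    exact Nat.add_right_cancel h1
  have hdef : ∀ c ≤ (X.prod U).dim, PoleDefect Φ σ (X.prod U) c
      (conv X.dim U.dim (numRank ops X) (defect Φ U) c) := by
    intro c hc
    refine poleDefect_of hp hRH hc ?_
    rw [h.genT_eq hT hU, h.finrank_combs' hD (fun j hj => genT_bot hj), hrank c hc, ← conv_add]
    exact conv_congr (fun _ _ => rfl) fun j hj => (numRank_add_defect U hj).symm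
  have hU' : ∀ j ≤ U.dim, PoleDefect Φ σ U j (defect Φ U j) := fun j hj =>
    poleDefect_of hp hRU hj (numRank_add_defect U hj).symm
  refine ⟨defect Φ U, hU', fun c hc => ⟨hrank c hc, hdef c hc, ?_⟩⟩
  rw [poleFormula_iff_of (hdef c hc), conv_eq_zero]
  refine forall_congr' fun i => forall_congr' fun hi => forall_congr' fun j =>
    forall_congr' fun hj => forall_congr' fun _ => forall_congr' fun _ => ?_
  exact (poleFormula_iff_of (hU' j hj)).symm

/-- **The pole formula and the defects from balanced relations.** -/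
theorem conclusion_of_good [IsAlgClosed W.K] (hp : p.Prime) (hm : 0 < m)
    (hRp : aeval (p : ℂ) R = 0) (hg : ∀ i, 0 < g i) {f : I → ℤ[X]}
    (hw : ∀ i, f i ∈ rootPolys (p ^ (n i * m)) (g i)) (hf : Good p m n g R E r f)
    (hY : ∀ x : W.H Y, x ∈ algSpan W Y) (P : I → Piece W Y)
    (hP : ∀ i, HasPolynomial (P i) Φ m (n i) (f i)) (X : 𝒱.Obj)
    (hX : IsProductOf ({Y} ∪ Set.range fun i => (P i).obj) X) :
    RiemannHyp Φ σ X ∧ (∀ j ≤ X.dim, PoleFormula Φ σ X j) ∧ ProductsWith Φ σ E r X := by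
  have hRX : EigRH Φ σ X := eigRH_products hg hY hw hP hX
  have hRH : RiemannHyp Φ σ X := riemannHyp_of_eig hRX
  obtain ⟨h, hh, hbal, hbalE, hsep⟩ := hf
  obtain ⟨R', hR', hR'p, hR'z⟩ := exists_RY (Φ := Φ) hY hRp
  replace hbal := balanced_mono hR'z hbal
  replace hbalE := balancedOver_mono hR'z hbalE
  let P' : I → Piece W Y := fun i => { P i with pol := h i }
  have hQ : ∀ i, (P' i).Q p m = p ^ (n i * m) := fun i => by
    rw [Piece.Q]
    change p ^ ((P i).obj.dim * m) = _
    rw [(hP i).dim]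
  have hQ' : (fun i => (P' i).Q p m) = fun i => p ^ (n i * m) := funext hQ
  have hO : ∀ i, (P' i).IsOver Φ m := fun i =>
    { frobenius := (hP i).frobenius
      sub_le := by
        have h1 := (hP i).sub_le
        rw [← (hP i).dim] at h1
        exact h1
      generated := (hP i).generated
      monic := (hh i).1
      degree_pos := by
        change 0 < (h i).natDegree
        rw [(hh i).2.1]
        exact hg i
      charpoly := by
        have h1 := (hP i).charpoly
        rw [(hh i).2.2, ← (hP i).dim] at h1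
        exact h1 }
  have hbal' : Balanced (fun i => (P' i).Q p m) (fun i => (P' i).pol) R' := by
    rw [hQ']
    exact hbal
  have hbalE' : BalancedOver E r (fun i => (P' i).Q p m) (fun i => (P' i).pol) R' := by
    rw [hQ']
    exact hbalE
  have hsep' : ∀ i, ((weil ((P' i).Q p m) (P' i).pol).map (Int.castRingHom ℚ)).Separable := by
    intro i
    rw [hQ i]
    exact hsep i
  have H : Setup Φ σ P' m R' := ⟨hp.one_lt, hm, hO, hR', hbal', hsep'⟩
  have HG : GSetup Φ σ P' m R' :=
    { hp := hp.one_lt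
      hm := hm
      frob := fun i => (hO i).frobenius
      sub_le := fun i => (hO i).sub_le
      gen := fun i => (hO i).generated
      monic := fun i => (hO i).monic
      span := fun i x hx => Submodule.span_mono (fun v hv => Or.inl hv)
        ((hO i).span_eig (hsep' i) hx)
      uniq := fun i lam x y hx hy => (hO i).eig_unique (hsep' i) hx hy
      hR := hR'
      hRp := hR'p
      bal := hbal'
      sep := hsep' }
  have hX' : IsProductOf ({Y} ∪ Set.range fun i => (P' i).obj) X := hX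
  refine ⟨hRH, ?_, ?_⟩
  · have h1 := tate_products W397.MF.pair W40.MF.span H
      (fun T hT j _ => tate_of_alg (alg_products hY T hT) j) X hX'
    exact W216.MF.pole W σ p hp.one_lt Φ X hRH fun j _ => h1 j
  · refine productsWith_of_tateTimes hp.one_lt hRX ?_
    refine tate_times W397.MF.pair W40.MF.span HG hbalE' hY ?_ hX'
    intro i x hx
    rw [ext_zero' HG i (hO i) hx]
    exact Submodule.zero_mem _

end Pool.Agent.H28.HP
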