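import Pool.Agent.H28.HP.Sieve
import Pool.Graph.R_seed8.W458.MF.Fin3
import Pool.Graph.R_seed8.W458.RK.Final

/-!
# Almost all tuples of polynomials have balanced relations
-/

set_option autoImplicit false

namespace Pool.Agent.H28.HP

open Polynomial Pool.Agent.W521.Frob Pool.Agent.W458.MF Pool.Agent.W458.RK NumberField

theorem prod_monic {l : ℕ} [Fact l.Prime] (T : Finset (ZMod l)) :
    (∏ t ∈ T, (X - C t) : (ZMod l)[X]).Monic ∧
      (∏ t ∈ T, (X - C t) : (ZMod l)[X]).natDegree = T.card :=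
  ⟨monic_prod_X_sub_C _ _, natDegree_finsetProd_X_sub_C_eq_card _ _⟩

variable {I : Type} [Fintype I] [DecidableEq I] {p : ℕ} {n g : I → ℕ} {s : I → ℕ → ℚ}
  {T : I → Set ℕ}

/-- The patterns. -/
noncomputable def pat (p N : ℕ) (n g : I → ℕ) (κ : I × Bool) (m l : ℕ) (i : I) :
    Set (ZMod l)[X] :=
  if i = κ.1 then (if κ.2 then flipSet (g i) N l (p ^ (n i * m)) else irrSet (g i) l)
  else splitSet (g i) l (p ^ (n i * m))

omit [Fintype I] in
theorem pat_monic {N : ℕ} (κ : I × Bool) (m : ℕ) {l : ℕ} (hl : l.Prime) (i : I) :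
    ∀ f ∈ pat p N n g κ m l i, f.Monic ∧ f.natDegree = g i := by
  have : Fact l.Prime := ⟨hl⟩
  intro f hf
  unfold pat at hf
  split_ifs at hf with h1 h2
  · obtain ⟨S, t₀, hS, -, rfl, -⟩ := hf
    rw [← hS]
    exact prod_monic S
  · exact ⟨hf.1, hf.2.1⟩
  · obtain ⟨S, hS, rfl, -⟩ := hf
    rw [← hS]
    exact prod_monic S

/-- The relations between the roots of the polynomials `f i`, the roots of `R`, and a number of
small rank over `E`, are balanced. -/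
def Good (p m : ℕ) (n g : I → ℕ) (R : ℤ[X]) (E : Subfield ℂ) (r : ℕ) (f : I → ℤ[X]) : Prop :=
  ∃ h : I → ℤ[X], (∀ i, (h i).Monic ∧ (h i).natDegree = g i ∧ f i = weil (p ^ (n i * m)) (h i)) ∧
    Balanced (fun i => p ^ (n i * m)) h R ∧ BalancedOver E r (fun i => p ^ (n i * m)) h R ∧
    ∀ i, ((weil (p ^ (n i * m)) (h i)).map (Int.castRingHom ℚ)).Separable

/-- **The relations are balanced for almost all tuples.** -/
theorem almost_all_good (hp : p.Prime) (hs : ∀ i, IsPolygon (n i) (g i) (s i) (T i))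
    (E : Subfield ℂ) [NumberField E] (r : ℕ) (hr : ∀ i, r < g i) {ε : ℝ} (hε : 0 < ε) :
    ∃ R : ℤ[X], aeval (p : ℂ) R = 0 ∧ ∃ m₀ : ℕ, ∀ m ≥ m₀,
      ({f : I → ℤ[X] | (∀ i, f i ∈ weilPolysAbove p m (n i) (g i) (s i) (T i)) ∧
        ¬ Good p m n g R E r f}.ncard : ℝ) ≤
      ε * ∏ i, ((weilPolysAbove p m (n i) (g i) (s i) (T i)).ncard : ℝ) := by
  classical
  obtain ⟨S, hSf, hSi, hSE⟩ := exists_spanning E
  obtain ⟨R, hRm, hRs, hR'⟩ := exists_R ((Set.finite_singleton (p : ℂ)).union hSf) (by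
    rintro x (hx | hx)
    · rw [Set.mem_singleton_iff.1 hx, ← map_natCast (algebraMap ℤ ℂ) p]
      exact isIntegral_algebraMap
    · exact hSi x hx)
  have hRp : aeval (p : ℂ) R = 0 := hR' _ (Or.inl rfl)
  have hRE : ∀ x ∈ E, x ∈ Submodule.span ℚ {z : ℂ | aeval z R = 0} := fun x hx =>
    Submodule.span_mono (fun y hy => hR' y (Or.inr hy)) (hSE x hx)
  refine ⟨R, hRp, ?_⟩
  obtain ⟨N, hN, hNz⟩ := W216.MF.uni (2 * ∑ i, g i)
  have hg : ∀ i, 0 < g i := fun i => (hs i).pos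
  choose c hc l₁ hl₁ using fun i => W205.MF.cnt (g i) N (hg i) hN
  obtain ⟨c₀, hc₀, hc₀c⟩ : ∃ c₀ : ℝ, 0 < c₀ ∧ ∀ i, c₀ ≤ c i := by
    rcases isEmpty_or_nonempty I with hI | hI
    · exact ⟨1, one_pos, fun i => hI.elim i⟩
    · obtain ⟨i, hi⟩ := Finite.exists_min c
      exact ⟨c i, hc i, hi⟩
  set L : ℕ := p + 3 + ∑ i, l₁ i with hL
  have hLi : ∀ i, l₁ i ≤ L := fun i => by
    have := Finset.single_le_sum (f := l₁) (fun j _ => Nat.zero_le _) (Finset.mem_univ i)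
    omega
  set G : Set ℕ := {l : ℕ | l.Prime ∧ SplitsMod R l} \ {l | l ≤ L} with hG
  have hinf : G.Infinite := (W976.MF.SPL R hRm hRs).sdiff (Set.finite_le_nat L)
  have hGp : ∀ l ∈ G, l.Prime ∧ SplitsMod R l ∧ L < l := fun l hl =>
    ⟨hl.1.1, hl.1.2, not_le.1 hl.2⟩
  have hGlp : ∀ l ∈ G, ¬ l ∣ p := by
    intro l hl h
    have h1 := (hGp l hl).2.2
    have h3 := Nat.le_of_dvd hp.pos h
    omega
  have hcard : ∀ (κ : I × Bool) (m : ℕ), ∀ l ∈ G, ∀ i,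
      c₀ * (l : ℝ) ^ g i ≤ ((pat p N n g κ m l i).ncard : ℝ) := by
    intro κ m l hl i
    have h1 := hGp l hl
    obtain ⟨h2, h3, h4⟩ := hl₁ i l h1.1 ((hLi i).trans h1.2.2.le) (p ^ (n i * m))
      (fun h => hGlp l hl (h1.1.dvd_of_dvd_pow h))
    have h5 : c₀ * (l : ℝ) ^ g i ≤ c i * (l : ℝ) ^ g i :=
      mul_le_mul_of_nonneg_right (hc₀c i) (by positivity)
    refine h5.trans ?_
    unfold pat
    split_ifs
    · exact h2
    · exact h4
    · exact h3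
  obtain ⟨m₀, h⟩ := almost_all hp hs (K := I × Bool) hinf (fun l hl => ⟨(hGp l hl).1, hGlp l hl⟩)
    (pat p N n g) (fun κ m l hl i => pat_monic κ m (hGp l hl).1 i) hc₀ hcard hε
  refine ⟨m₀, fun m hm => le_trans ?_ (h m hm)⟩
  refine Nat.cast_le.2 (Set.ncard_le_ncard ?_ ?_)
  swap
  · refine (Set.Finite.pi' fun i => finite_above (m := m) (n := n i) (g := g i) (s := s i)
      (T := T i) hp).subset ?_
    rintro f ⟨hf, -⟩
    exact hf
  rintro f ⟨hf, hnot⟩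
  refine ⟨hf, ?_⟩
  rintro ⟨h, hh, hpat⟩
  apply hnot
  have hdeg : ∀ i, (h i).natDegree = g i := fun i => (hh i).2.1
  have huni : ∀ i, ∀ z : ℂ, (∃ t : ℕ, 0 < t ∧ z ^ t = 1) →
      (∃ P : ℚ[X], P ≠ 0 ∧ P.natDegree ≤ 2 * (h i).natDegree ∧ aeval z P = 0) → z ^ N = 1 := by
    rintro i z ht ⟨P, hP0, hPd, hPz⟩
    refine hNz z ht ⟨P, hP0, hPd.trans ?_, hPz⟩
    rw [hdeg i]
    exact Nat.mul_le_mul_left 2 (Finset.single_le_sum (fun j _ => Nat.zero_le _)
      (Finset.mem_univ i))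
  have hirr : ∀ i, ∃ l : ℕ, l.Prime ∧
      (h i).map (Int.castRingHom (ZMod l)) ∈ irrSet (h i).natDegree l := by
    intro i
    obtain ⟨l, hl, h1⟩ := hpat (i, false)
    have h2 : (h i).map (Int.castRingHom (ZMod l)) ∈ pat p N n g (i, false) m l i := h1 i
    unfold pat at h2
    rw [if_pos rfl] at h2
    exact ⟨l, (hGp l hl).1, by rw [hdeg i]; exact h2⟩
  have hflip : ∀ i₀, ∃ l : ℕ, l.Prime ∧ l ≠ 2 ∧ (∀ i, ¬ l ∣ p ^ (n i * m)) ∧ SplitsMod R l ∧
      (h i₀).map (Int.castRingHom (ZMod l)) ∈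
        flipSet (h i₀).natDegree N l (p ^ (n i₀ * m)) ∧
      ∀ i, i ≠ i₀ → (h i).map (Int.castRingHom (ZMod l)) ∈
        splitSet (h i).natDegree l (p ^ (n i * m)) := by
    intro i₀
    obtain ⟨l, hl, h1⟩ := hpat (i₀, true)
    have h3 := hGp l hl
    refine ⟨l, h3.1, by omega, fun i h => hGlp l hl (h3.1.dvd_of_dvd_pow h), h3.2.1, ?_,
      fun i hi => ?_⟩
    · have h2 : (h i₀).map (Int.castRingHom (ZMod l)) ∈ pat p N n g (i₀, true) m l i₀ := h1 i₀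
      unfold pat at h2
      rw [if_pos rfl, if_pos rfl] at h2
      rw [hdeg i₀]
      exact h2
    · have h2 : (h i).map (Int.castRingHom (ZMod l)) ∈ pat p N n g (i₀, true) m l i := h1 i
      unfold pat at h2
      rw [if_neg hi] at h2
      rw [hdeg i]
      exact h2
  have hnt := W338.MF.nt W976.MF.FLIP (fun i => p ^ (n i * m)) h R N hN
    (fun i => pow_pos hp.pos _) (fun i => (hh i).1) (fun i => by rw [hdeg i]; exact hg i) hRm huni
    hirr hflip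
  have hnt3 := nt3 W976.MF.FLIP W902.MF.FLIP2 W12.MF.fix E r hRE (fun _ => False)
    (fun i => p ^ (n i * m)) h (fun i => by rw [hdeg i]; exact hr i) N hN
    (fun i => pow_pos hp.pos _) (fun i => (hh i).1) (fun i => by rw [hdeg i]; exact hg i) hRm huni
    hirr (fun i₀ _ => hflip i₀) (fun i₀ hF => hF.elim)
  exact ⟨h, hh, hnt.1, hnt3, hnt.2⟩

end Pool.Agent.H28.HP
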