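import Pool.Agent.H28.HP.Defs
import Pool.Agent.H28.HP.GDefs
import Pool.Graph.R_seed8.W458.MF.Gen10

/-!
# The Riemann hypothesis for products

The lemmas on generalised eigenvectors and the Riemann hypothesis for a product of two varieties are
adapted from the library (`V1141.SL.RH`).
-/

set_option autoImplicit false

open CategoryTheory AlgebraicGeometry Polynomial
open scoped TensorProduct

universe u v

namespace Pool.Agent.H28.HP

open Pool.Agent.H914 Pool.Agent.H914.VarClass Pool.Agent.H914.VarClass.Obj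
  Pool.Agent.H914.WeilCohomology Pool.Agent.H281R3.HT Pool.Agent.W534
  Pool.Agent.W458.RK Pool.Agent.W458.MF Pool.Agent.W536.RR

variable {k : Type u} [Field k] {𝒱 : VarClass k} {ops : CycleOps 𝒱}
  {W : WeilCohomology.{u, v} ops} {p : ℕ} {Φ : FrobSystem W p}
  {σ : W.K →+* ℂ} {X Y : 𝒱.Obj}

/-- The Riemann hypothesis, for generalised eigenvectors. -/
def EigRH (Φ : FrobSystem W p) (σ : W.K →+* ℂ) (X : 𝒱.Obj) : Prop :=
  ∀ i, ∀ y ∈ W.gr X i, y ≠ 0 → ∀ s : ℕ, 0 < s → ∀ ν : W.K,
    y ∈ (frob Φ X s).maxGenEigenspace ν → ‖σ ν‖ ^ 2 = (card Φ X s : ℝ) ^ i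

lemma frob_gr {s i : ℕ} {y : W.H X} (hy : y ∈ W.gr X i) : frob Φ X s y ∈ W.gr X i :=
  W.map_mem _ hy

/-- the restriction to one degree -/
noncomputable def frobGr (Φ : FrobSystem W p) (X : 𝒱.Obj) (s i : ℕ) : Module.End W.K (W.gr X i) :=
  (frob Φ X s).restrict fun _ hx => frob_gr hx

lemma frobGr_apply (s i : ℕ) (y : W.gr X i) : ((frobGr Φ X s i y : W.gr X i) : W.H X) =
    frob Φ X s y := rfl

lemma frobGr_pow (s i : ℕ) : frobGr Φ X s i = frobGr Φ X 1 i ^ s := by
  refine LinearMap.ext fun y => ?_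
  apply Subtype.ext
  have h1 : ∀ (m : ℕ) (z : W.gr X i), (((frobGr Φ X 1 i ^ m) z : W.gr X i) : W.H X) =
      frob Φ X m z := by
    intro m
    induction m with
    | zero =>
      intro z
      have h2 : frob Φ X 0 = (frob Φ X 1) ^ 0 := by rw [← frob_mul_eq, mul_zero]
      rw [h2]
      simp
    | succ m ih =>
      intro z
      rw [pow_succ', Module.End.mul_apply, frobGr_apply, ih]
      have h2 : frob Φ X (m + 1) = frob Φ X 1 * frob Φ X m := by
        rw [show m + 1 = 1 * (m + 1) by ring, frob_mul_eq, pow_succ', ← frob_mul_eq, one_mul]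
      rw [h2, Module.End.mul_apply]
  rw [h1, frobGr_apply]

lemma gen_of_frobGr {s i : ℕ} {ν : W.K} {y : W.gr X i}
    (hy : y ∈ (frobGr Φ X s i).maxGenEigenspace ν) :
    (y : W.H X) ∈ (frob Φ X s).maxGenEigenspace ν := by
  have h1 := gen_map (T := frobGr Φ X s i) (T' := frob Φ X s) (θ := (W.gr X i).subtype) (c := 1)
    (fun x => by rw [one_smul]; rfl) hy
  rwa [one_mul] at h1

lemma gen_frobGr {s i : ℕ} {ν : W.K} {y : W.gr X i}
    (hy : (y : W.H X) ∈ (frob Φ X s).maxGenEigenspace ν) :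
    y ∈ (frobGr Φ X s i).maxGenEigenspace ν := by
  rw [Module.End.mem_maxGenEigenspace] at hy ⊢
  obtain ⟨n, hn⟩ := hy
  refine ⟨n, ?_⟩
  apply Subtype.ext
  have h1 : ∀ (m : ℕ) (z : W.gr X i),
      ((((frobGr Φ X s i - ν • (1 : Module.End W.K (W.gr X i))) ^ m) z : W.gr X i) : W.H X) =
      ((frob Φ X s - ν • (1 : Module.End W.K (W.H X))) ^ m) z := by
    intro m
    induction m with
    | zero => intro z; simp
    | succ m ih =>
      intro z
      rw [pow_succ', Module.End.mul_apply, pow_succ', Module.End.mul_apply, ← ih]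
      rfl
  rw [h1, hn]
  rfl

/-- the Riemann hypothesis for the Frobenius endomorphism itself is enough -/
lemma eigRH_of_one [IsAlgClosed W.K] (H : ∀ i, ∀ y ∈ W.gr X i, y ≠ 0 → ∀ ν : W.K,
    frob Φ X 1 y = ν • y → ‖σ ν‖ ^ 2 = (card Φ X 1 : ℝ) ^ i) : EigRH Φ σ X := by
  intro i y hy hy0 s hs ν hν
  have h1 : (⟨y, hy⟩ : W.gr X i) ∈ (frobGr Φ X s i).maxGenEigenspace ν := gen_frobGr hν
  have h2 := hasEigenvalue_of_gen h1 (fun h => hy0 (congrArg Subtype.val h))
  rw [frobGr_pow] at h2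
  obtain ⟨ν', hν', rfl⟩ := exists_eigenvalue_of_pow h2
  obtain ⟨z, hz⟩ := hν'.exists_hasEigenvector
  have h3 := H i z z.2 (fun h => hz.2 (Subtype.ext h)) ν'
    (congrArg Subtype.val (Module.End.mem_eigenspace_iff.1 hz.1))
  rw [map_pow, norm_pow, ← pow_mul, mul_comm s 2, pow_mul, h3, ← pow_mul, mul_comm i s, pow_mul]
  congr 1
  simp only [W534.card, mul_one]
  push_cast
  rw [← pow_mul]

/-- **The Riemann hypothesis.** -/
theorem riemannHyp_of_eig [IsAlgClosed W.K] (H : EigRH Φ σ X) : RiemannHyp Φ σ X := by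
  intro s hs i μ hμ
  rw [frobPoly_eq] at hμ
  have hne : ((frobOn Φ X s i).charpoly.map σ) ≠ 0 :=
    Polynomial.map_ne_zero (LinearMap.charpoly_monic _).ne_zero
  have h1 : μ ∈ ((frobOn Φ X s i).charpoly.map σ).roots := (mem_roots hne).2 hμ
  rw [(IsAlgClosed.splits (frobOn Φ X s i).charpoly).roots_map] at h1
  obtain ⟨ν, hν, rfl⟩ := Multiset.mem_map.1 h1
  have h2 : (frobOn Φ X s i).HasEigenvalue ν := by
    rw [Module.End.hasEigenvalue_iff_isRoot_charpoly]
    exact isRoot_of_mem_roots hν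
  obtain ⟨z, hz⟩ := h2.exists_hasEigenvector
  have h3 : frob Φ X s (z : W.H X) = ν • (z : W.H X) :=
    congrArg Subtype.val (Module.End.mem_eigenspace_iff.1 hz.1)
  exact H i z z.2 (fun h => hz.2 (Subtype.ext h)) s hs ν (eig_mem_gen h3)

lemma eigRH_of_riemannHyp [IsAlgClosed W.K] (h : RiemannHyp Φ σ X) : EigRH Φ σ X := by
  intro i y hy hy0 s hs ν hν
  have h1 : (⟨y, hy⟩ : W.gr X i) ∈ (frobGr Φ X s i).maxGenEigenspace ν := gen_frobGr hν
  have h2 : (frobOn Φ X s i).HasEigenvalue ν :=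
    hasEigenvalue_of_gen h1 (fun h => hy0 (congrArg Subtype.val h))
  refine h s hs i (σ ν) ?_
  rw [frobPoly_eq]
  rw [Module.End.hasEigenvalue_iff_isRoot_charpoly] at h2
  exact h2.map

/-- graded pieces are spanned by homogeneous generalised eigenvectors -/
lemma gr_span_gen [IsAlgClosed W.K] (m c : ℕ) (x : W.H X) (hx : x ∈ W.gr X c) :
    x ∈ Submodule.span W.K {v | v ∈ W.gr X c ∧ ∃ μ : W.K, v ∈ (frob Φ X m).maxGenEigenspace μ} := by
  have h3 := span_gen_top (frobGr Φ X m c) ⟨x, hx⟩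
  have h4 : ∀ z : W.gr X c, z ∈ Submodule.span W.K
      {v | ∃ μ : W.K, v ∈ (frobGr Φ X m c).maxGenEigenspace μ} → (z : W.H X) ∈
      Submodule.span W.K {v | v ∈ W.gr X c ∧ ∃ μ : W.K, v ∈ (frob Φ X m).maxGenEigenspace μ} := by
    intro z hz
    induction hz using Submodule.span_induction with
    | mem z hz =>
      obtain ⟨μ, hμ⟩ := hz
      exact Submodule.subset_span ⟨z.2, μ, gen_of_frobGr hμ⟩
    | zero => exact Submodule.zero_mem _
    | add z z' _ _ hz hz' => exact Submodule.add_mem _ hz hz'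
    | smul t z _ hz => exact Submodule.smul_mem _ _ hz
  exact h4 _ h3

/-- **The Riemann hypothesis for products.** -/
theorem eigRH_prod [IsAlgClosed W.K] (hX : EigRH Φ σ X) (hY : EigRH Φ σ Y) :
    EigRH Φ σ (X.prod Y) := by
  refine eigRH_of_one fun i y hy hy0 ν hν => ?_
  obtain ⟨a, b, ha, hb, hab, h1⟩ := frob_comm Φ (fst X Y)
  obtain ⟨a', b', ha', hb', hab', h2⟩ := frob_comm Φ (snd X Y)
  set F := frob Φ (X.prod Y) (a * a') with hF
  have hFpow : F = frob Φ (X.prod Y) 1 ^ (a * a') := by rw [hF, ← frob_mul_eq, one_mul]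
  have hy2 : F y = ν ^ (a * a') • y := by
    rw [hFpow]
    generalize a * a' = m
    induction m with
    | zero => rw [pow_zero, pow_zero, one_smul]; rfl
    | succ m ih => rw [pow_succ', Module.End.mul_apply, ih, map_smul, hν, smul_smul, pow_succ]
  let β : W.H X →ₗ[W.K] W.H Y →ₗ[W.K] W.H (X.prod Y) :=
    (LinearMap.mul W.K (W.H (X.prod Y))).compl₁₂ (W.map (fst X Y)).toLinearMap
      (W.map (snd X Y)).toLinearMap
  have hβ : ∀ x x', β x x' = W.map (fst X Y) x * W.map (snd X Y) x' := fun x x' => rfl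
  have hFβ : ∀ x x', F (β x x') = β (frob Φ X (b * a') x) (frob Φ Y (b' * a) x') := by
    intro x x'
    rw [hβ, hβ]
    change W.map (W534.iter (Φ.Fr (X.prod Y)) (a * a')) (W.map (fst X Y) x *
      W.map (snd X Y) x') = W.map (fst X Y) (W.map (W534.iter (Φ.Fr X) (b * a')) x) *
        W.map (snd X Y) (W.map (W534.iter (Φ.Fr Y) (b' * a)) x')
    rw [map_mul, ← h1, ← h2, mul_comm a' a]
  -- the products of generalised eigenvectors
  let M : Set (W.H (X.prod Y)) := {w | ∃ (c d : ℕ) (x : W.H X) (x' : W.H Y) (μ μ' : W.K),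
    x ∈ W.gr X c ∧ x' ∈ W.gr Y d ∧ c + d = i ∧
    x ∈ Module.End.maxGenEigenspace (frob Φ X (b * a')) μ ∧
    x' ∈ Module.End.maxGenEigenspace (frob Φ Y (b' * a)) μ' ∧ w = β x x'}
  have hspan0 : ∀ (c d : ℕ) (x : W.H X) (x' : W.H Y), x ∈ W.gr X c → x' ∈ W.gr Y d → c + d = i →
      β x x' ∈ Submodule.span W.K M := by
    intro c d x x' hx hx' hcd
    have hx1 := gr_span_gen (Φ := Φ) (b * a') c x hx
    have hx2 := gr_span_gen (Φ := Φ) (b' * a) d x' hx'
    clear hx hx'
    induction hx1 using Submodule.span_induction with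
    | mem x hx =>
      induction hx2 using Submodule.span_induction with
      | mem x' hx' =>
        obtain ⟨h5, μ, hμ⟩ := hx
        obtain ⟨h6, μ', hμ'⟩ := hx'
        exact Submodule.subset_span ⟨c, d, x, x', μ, μ', h5, h6, hcd, hμ, hμ', rfl⟩
      | zero => rw [map_zero]; exact Submodule.zero_mem _
      | add z z' _ _ hz hz' => rw [map_add]; exact Submodule.add_mem _ hz hz'
      | smul t z _ hz => rw [map_smul]; exact Submodule.smul_mem _ _ hz
    | zero => rw [map_zero, LinearMap.zero_apply]; exact Submodule.zero_mem _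
    | add z z' _ _ hz hz' => rw [map_add, LinearMap.add_apply]; exact Submodule.add_mem _ hz hz'
    | smul t z _ hz => rw [map_smul, LinearMap.smul_apply]; exact Submodule.smul_mem _ _ hz
  have hint := W.isInternal (X.prod Y)
  have hβgr : ∀ (c d : ℕ) (x : W.H X) (x' : W.H Y), x ∈ W.gr X c → x' ∈ W.gr Y d →
      β x x' ∈ W.gr (X.prod Y) (c + d) := by
    intro c d x x' hx hx'
    rw [hβ]
    exact W.mul_mem (W.map_mem _ hx) (W.map_mem _ hx')
  have hspan1 : ∀ (x : W.H X) (x' : W.H Y), proj hint i (β x x') ∈ Submodule.span W.K M := by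
    intro x x'
    refine gr_induction (W.isInternal X) (p := fun x => proj hint i (β x x') ∈
      Submodule.span W.K M) ?_ ?_ x
    · intro c x hx
      refine gr_induction (W.isInternal Y) (p := fun x' => proj hint i (β x x') ∈
        Submodule.span W.K M) ?_ ?_ x'
      · intro d x' hx'
        by_cases hcd : c + d = i
        · have h5 := hβgr c d x x' hx hx'
          rw [hcd] at h5
          rw [proj_same hint h5]
          exact hspan0 c d x x' hx hx' hcd
        · rw [proj_ne hint (hβgr c d x x' hx hx') hcd]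
          exact Submodule.zero_mem _
      · intro u u' hu hu'
        rw [map_add, map_add]
        exact Submodule.add_mem _ hu hu'
    · intro u u' hu hu'
      rw [map_add, LinearMap.add_apply, map_add]
      exact Submodule.add_mem _ hu hu'
  have hspan : y ∈ Submodule.span W.K M := by
    rw [← proj_same hint hy]
    obtain ⟨t, rfl⟩ := (W.kunneth X Y).2 y
    clear hy hy0 hν hy2
    induction t using TensorProduct.induction_on with
    | zero => rw [map_zero, map_zero]; exact Submodule.zero_mem _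
    | add x y hx hy => rw [map_add, map_add]; exact Submodule.add_mem _ hx hy
    | tmul x x' => exact hspan1 x x'
  have hMgen : ∀ w ∈ M, ∃ ν, w ∈ Module.End.maxGenEigenspace F ν := by
    rintro w ⟨c, d, x, x', μ, μ', -, -, -, hx, hx', rfl⟩
    exact ⟨_, gen_mul β hFβ hx hx'⟩
  have h3 := mem_span_gen hMgen hspan (eig_mem_gen hy2)
  obtain ⟨w, ⟨hwM, hwν⟩, hw0⟩ : ∃ w ∈ {w | w ∈ M ∧
      w ∈ Module.End.maxGenEigenspace F (ν ^ (a * a'))}, w ≠ 0 := by
    by_contra hcon
    push Not at hcon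
    apply hy0
    have h4 : Submodule.span W.K {w | w ∈ M ∧
        w ∈ Module.End.maxGenEigenspace F (ν ^ (a * a'))} = ⊥ := by
      rw [Submodule.span_eq_bot]
      exact hcon
    rw [h4] at h3
    exact (Submodule.mem_bot _).1 h3
  obtain ⟨c, d, x, x', μ, μ', hxc, hxd, hcd, hx, hx', rfl⟩ := hwM
  have h4 : μ * μ' = ν ^ (a * a') := eq_of_mem_gen (gen_mul β hFβ hx hx') hwν hw0
  have hx0 : x ≠ 0 := by
    rintro rfl
    rw [map_zero, LinearMap.zero_apply] at hw0
    exact hw0 rfl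
  have hx0' : x' ≠ 0 := by
    rintro rfl
    rw [map_zero] at hw0
    exact hw0 rfl
  have h5 := hX c x hxc hx0 (b * a') (Nat.mul_pos hb ha') μ hx
  have h6 := hY d x' hxd hx0' (b' * a) (Nat.mul_pos hb' ha) μ' hx'
  have hc1 : card Φ X (b * a') = card Φ (X.prod Y) 1 ^ (a * a') := by
    simp only [W534.card, mul_one, ← pow_mul]
    congr 1
    calc Φ.e X * (b * a') = (b * Φ.e X) * a' := by ring
      _ = Φ.e (X.prod Y) * (a * a') := by rw [← hab]; ring
  have hc2 : card Φ Y (b' * a) = card Φ (X.prod Y) 1 ^ (a * a') := by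
    simp only [W534.card, mul_one, ← pow_mul]
    congr 1
    calc Φ.e Y * (b' * a) = (b' * Φ.e Y) * a := by ring
      _ = Φ.e (X.prod Y) * (a * a') := by rw [← hab']; ring
  have h7 : (‖σ ν‖ ^ 2) ^ (a * a') = ((card Φ (X.prod Y) 1 : ℝ) ^ i) ^ (a * a') := by
    calc (‖σ ν‖ ^ 2) ^ (a * a') = ‖σ (ν ^ (a * a'))‖ ^ 2 := by
          rw [map_pow, norm_pow, ← pow_mul, ← pow_mul, mul_comm]
      _ = ‖σ μ‖ ^ 2 * ‖σ μ'‖ ^ 2 := by rw [← h4, map_mul, norm_mul, mul_pow]
      _ = ((card Φ (X.prod Y) 1 : ℝ) ^ i) ^ (a * a') := by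
          rw [h5, h6, hc1, hc2, ← hcd]
          push_cast
          rw [← pow_mul, ← pow_mul, ← pow_mul, ← pow_add]
          congr 1
          ring
  exact (pow_left_inj₀ (by positivity) (by positivity)
    (Nat.mul_pos ha ha').ne').1 h7

end Pool.Agent.H28.HP
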