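import Pool.Agent.H28.HP.Count
import Pool.Graph.R_seed8.W521.Turan

/-!
# Almost all tuples have given patterns modulo primes
-/

set_option autoImplicit false

namespace Pool.Agent.H28.HP

open Polynomial Pool.Agent.W521.Frob Pool.Agent.W521.Descent Pool.Agent.W521.Density
  Pool.Agent.W521.Lower Pool.Agent.W521.Count Pool.Agent.W521.Turan

theorem trPoly_map {p m g : ℕ} {s : ℕ → ℚ} (l : ℕ) (x : Fin g → ℤ) :
    (trPoly p m g s x).map (Int.castRingHom (ZMod l)) =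
      trPoly p m g s (fun k => ((x k : ℤ) : ZMod l)) := by
  unfold trPoly
  rw [map_mkPoly]
  congr 1
  funext k
  simp

section

variable {p m g l : ℕ} {s : ℕ → ℚ} [Fact l.Prime]

/-- The vectors whose polynomial has a given property. -/
noncomputable def vecs (p m g l : ℕ) [Fact l.Prime] (s : ℕ → ℚ) (A : Set (ZMod l)[X]) :
    Finset (Fin g → ZMod l) := by
  classical
  exact Finset.univ.filter fun v => trPoly p m g s v ∈ A

theorem card_vecs (hpl : ¬ l ∣ p) {A : Set (ZMod l)[X]}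
    (hA : ∀ f ∈ A, f.Monic ∧ f.natDegree = g) : A.ncard ≤ (vecs p m g l s A).card := by
  classical
  have hp : (p : ZMod l) ≠ 0 := fun h => hpl ((ZMod.natCast_eq_zero_iff p l).1 h)
  have h1 : A ⊆ (fun v => trPoly p m g s v) '' (vecs p m g l s A : Set (Fin g → ZMod l)) := by
    intro f hf
    obtain ⟨hm, hd⟩ := hA f hf
    have h2 : trPoly p m g s (fun k : Fin g => ((p : ZMod l) ^ height s m (g - k))⁻¹ * f.coeff k) =
        f := by
      unfold trPoly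
      rw [← eq_mkPoly hm hd]
      congr 1
      funext k
      rw [← mul_assoc, mul_inv_cancel₀ (pow_ne_zero _ hp), one_mul, mkPoly_coeff]
    refine ⟨_, ?_, h2⟩
    simp only [vecs, Finset.coe_filter, Finset.mem_univ, true_and, Set.mem_ofPred_eq]
    rw [h2]
    exact hf
  refine (Set.ncard_le_ncard h1 ((Finset.finite_toSet _).image _)).trans ?_
  refine (Set.ncard_image_le (Finset.finite_toSet _)).trans ?_
  rw [Set.ncard_coe_finset]

end

variable {I : Type} [Fintype I] [DecidableEq I] {p m : ℕ} {n g : I → ℕ} {s : I → ℕ → ℚ}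
  {T : I → Set ℕ}

/-- The event. -/
noncomputable def event (p m : ℕ) (g : I → ℕ) (s : I → ℕ → ℚ) (l : ℕ)
    (A : ∀ _ : I, Set (ZMod l)[X]) : Finset ((Σ i, Fin (g i)) → ZMod l) := by
  classical
  exact if h : l.Prime then
    haveI : Fact l.Prime := ⟨h⟩
    blocks g fun i => vecs p m (g i) l (s i) (A i)
  else ∅

theorem mem_event {l : ℕ} (hl : l.Prime) {A : ∀ _ : I, Set (ZMod l)[X]}
    {x : (Σ i, Fin (g i)) → ℤ} : red l x ∈ event p m g s l A ↔
      ∀ i, (trPoly p m (g i) (s i) fun k => x ⟨i, k⟩).map (Int.castRingHom (ZMod l)) ∈ A i := by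
  classical
  have : Fact l.Prime := ⟨hl⟩
  rw [event, dif_pos hl, mem_blocks]
  refine forall_congr' fun i => ?_
  simp only [vecs, Finset.mem_filter, Finset.mem_univ, true_and]
  rw [trPoly_map]
  rfl

theorem card_event {l : ℕ} (hl : l.Prime) (hpl : ¬ l ∣ p) {A : ∀ _ : I, Set (ZMod l)[X]}
    (hA : ∀ i, ∀ f ∈ A i, f.Monic ∧ f.natDegree = g i) {c : ℝ} (hc : 0 ≤ c)
    (hAc : ∀ i, c * (l : ℝ) ^ g i ≤ ((A i).ncard : ℝ)) :
    c ^ Fintype.card I * (l : ℝ) ^ Fintype.card (Σ i, Fin (g i)) ≤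
      ((event p m g s l A).card : ℝ) := by
  classical
  have : Fact l.Prime := ⟨hl⟩
  rw [event, dif_pos hl, card_blocks]
  push_cast
  have h1 : c ^ Fintype.card I * (l : ℝ) ^ Fintype.card (Σ i, Fin (g i)) =
      ∏ i, (c * (l : ℝ) ^ g i) := by
    rw [Finset.prod_mul_distrib, Finset.prod_const, Finset.card_univ, Finset.prod_pow_eq_pow_sum,
      Fintype.card_sigma]
    simp
  rw [h1]
  refine Finset.prod_le_prod (fun i _ => by positivity) fun i _ => (hAc i).trans ?_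
  exact_mod_cast card_vecs hpl (hA i)

/-- The lower corner of the box. -/
noncomputable def lo (p m : ℕ) (n g : I → ℕ) (s : I → ℕ → ℚ) (j : Σ i, Fin (g i)) : ℤ :=
  -(bnd p m (n j.1) (g j.1) (s j.1) j.2 : ℤ)

/-- The lengths of the sides of the box. -/
noncomputable def len (p m : ℕ) (n g : I → ℕ) (s : I → ℕ → ℚ) (j : Σ i, Fin (g i)) : ℕ :=
  2 * bnd p m (n j.1) (g j.1) (s j.1) j.2 + 1

omit [Fintype I] [DecidableEq I] in
theorem lam_le_len (hp : p.Prime) (j : Σ i, Fin (g i)) :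
    lam p m (n j.1) (s j.1) (g j.1 - j.2) ≤ len p m n g s j := by
  have h0 := lam_pos (m := m) (n := n j.1) (s := s j.1) hp (g j.1 - j.2)
  have h1 := Nat.lt_floor_add_one ((4 : ℝ) ^ g j.1 * lam p m (n j.1) (s j.1) (g j.1 - j.2))
  have h2 : (0 : ℝ) ≤ (bnd p m (n j.1) (g j.1) (s j.1) j.2 : ℝ) := Nat.cast_nonneg _
  have h3 : (1 : ℝ) ≤ 4 ^ g j.1 := one_le_pow₀ (by norm_num)
  unfold len
  unfold bnd at *
  push_cast
  nlinarith

omit [Fintype I] [DecidableEq I] in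
theorem len_le (hp : p.Prime) (j : Σ i, Fin (g i))
    (h : 1 ≤ lam p m (n j.1) (s j.1) (g j.1 - j.2)) :
    (len p m n g s j : ℝ) ≤ (3 * 4 ^ g j.1) * lam p m (n j.1) (s j.1) (g j.1 - j.2) := by
  have h0 := lam_pos (m := m) (n := n j.1) (s := s j.1) hp (g j.1 - j.2)
  have h1 : (bnd p m (n j.1) (g j.1) (s j.1) j.2 : ℝ) ≤
      (4 : ℝ) ^ g j.1 * lam p m (n j.1) (s j.1) (g j.1 - j.2) := Nat.floor_le (by positivity)
  have h3 : (1 : ℝ) ≤ 4 ^ g j.1 := one_le_pow₀ (by norm_num)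
  unfold len
  push_cast
  nlinarith

/-- The polynomials with all patterns. -/
def HasPatterns (p m : ℕ) (n g : I → ℕ) {K : Type} (G : Set ℕ)
    (A : K → ∀ l : ℕ, ∀ _ : I, Set (ZMod l)[X]) (f : I → ℤ[X]) : Prop :=
  ∃ h : I → ℤ[X], (∀ i, (h i).Monic ∧ (h i).natDegree = g i ∧ f i = weil (p ^ (n i * m)) (h i)) ∧
    ∀ κ, ∃ l ∈ G, ∀ i, (h i).map (Int.castRingHom (ZMod l)) ∈ A κ l i

theorem exists_box (hp : p.Prime) (hs : ∀ i, IsPolygon (n i) (g i) (s i) (T i)) {f : I → ℤ[X]}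
    (hf : ∀ i, f i ∈ weilPolysAbove p m (n i) (g i) (s i) (T i)) :
    ∃ x ∈ box (lo p m n g s) (len p m n g s),
      ∀ i, f i = weil (p ^ (n i * m)) (trPoly p m (g i) (s i) fun k => x ⟨i, k⟩) := by
  choose x hx hxb using fun i => exists_coord hp (hs i) (hf i)
  refine ⟨fun j => x j.1 j.2, ?_, fun i => hx i⟩
  unfold box
  rw [Fintype.mem_piFinset]
  intro j
  have h1 := abs_le.1 (hxb j.1 j.2)
  rw [Finset.mem_Ico]
  unfold lo len
  push_cast
  constructor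
  · exact h1.1
  · linarith [h1.2]

/-- The exceptions are few. -/
theorem bad_count (hp : p.Prime) (hs : ∀ i, IsPolygon (n i) (g i) (s i) (T i)) {K : Type}
    [Fintype K] {P : Finset ℕ} (hPne : P.Nonempty) {Q : ℝ} (hQ : ∀ l ∈ P, (l : ℝ) ≤ Q)
    (hPp : ∀ l ∈ P, l.Prime ∧ ¬ l ∣ p) {G : Set ℕ} (hPG : ∀ l ∈ P, l ∈ G)
    {A : K → ∀ l : ℕ, ∀ _ : I, Set (ZMod l)[X]}
    (hA : ∀ κ, ∀ l ∈ P, ∀ i, ∀ f ∈ A κ l i, f.Monic ∧ f.natDegree = g i) {c : ℝ} (hc : 0 < c)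
    (hAc : ∀ κ, ∀ l ∈ P, ∀ i, c * (l : ℝ) ^ g i ≤ ((A κ l i).ncard : ℝ)) {B : ℝ} (hB : 0 < B)
    (hBl : ∀ i k, 0 < k → k ≤ g i → B ≤ lam p m (n i) (s i) k) :
    ({f : I → ℤ[X] | (∀ i, f i ∈ weilPolysAbove p m (n i) (g i) (s i) (T i)) ∧
      ¬ HasPatterns p m n g G A f}.ncard : ℝ) ≤
      Fintype.card K * ((1 / ((c ^ Fintype.card I) ^ 2 * P.card) +
        Fintype.card (Σ i, Fin (g i)) * Q ^ 2 / ((c ^ Fintype.card I) ^ 2 * B)) *
          ∏ j, (len p m n g s j : ℝ)) := by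
  classical
  set X := box (lo p m n g s) (len p m n g s) with hX
  have hbound : ∀ κ, ((X.filter (fun x => ∀ l ∈ P, red l x ∉ event p m g s l (A κ l))).card : ℝ) ≤
      (1 / ((c ^ Fintype.card I) ^ 2 * P.card) +
        Fintype.card (Σ i, Fin (g i)) * Q ^ 2 / ((c ^ Fintype.card I) ^ 2 * B)) *
          ∏ j, (len p m n g s j : ℝ) := by
    intro κ
    refine turan P (fun l hl => (hPp l hl).1) Q hQ (fun l => event p m g s l (A κ l))
      (c ^ Fintype.card I) (pow_pos hc _)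
      (fun l hl => card_event (hPp l hl).1 (hPp l hl).2 (hA κ l hl) hc.le (hAc κ l hl))
      _ _ B hB (fun j => ?_) hPne
    exact (hBl j.1 _ (by have := j.2.2; omega) (Nat.sub_le _ _)).trans (lam_le_len hp j)
  let F : ((Σ i, Fin (g i)) → ℤ) → (I → ℤ[X]) := fun x i =>
    weil (p ^ (n i * m)) (trPoly p m (g i) (s i) fun k => x ⟨i, k⟩)
  let Z : Finset ((Σ i, Fin (g i)) → ℤ) := Finset.univ.biUnion fun κ : K =>
    X.filter (fun x => ∀ l ∈ P, red l x ∉ event p m g s l (A κ l))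
  have hsub : {f : I → ℤ[X] | (∀ i, f i ∈ weilPolysAbove p m (n i) (g i) (s i) (T i)) ∧
      ¬ HasPatterns p m n g G A f} ⊆ F '' (Z : Set _) := by
    rintro f ⟨hf, hnot⟩
    obtain ⟨x, hx, hfx⟩ := exists_box hp hs hf
    refine ⟨x, ?_, (funext hfx).symm⟩
    by_contra hxZ
    apply hnot
    refine ⟨fun i => trPoly p m (g i) (s i) fun k => x ⟨i, k⟩, fun i =>
      ⟨mkPoly_monic _ _, mkPoly_natDegree _ _, hfx i⟩, fun κ => ?_⟩
    by_contra hno
    apply hxZ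
    simp only [Z, Finset.coe_biUnion, Set.mem_iUnion, Finset.mem_coe, Finset.mem_univ,
      Finset.mem_filter, exists_prop, true_and]
    refine ⟨κ, hx, fun l hl hmem => hno ⟨l, hPG l hl, ?_⟩⟩
    exact (mem_event (hPp l hl).1).1 hmem
  have h1 : ({f : I → ℤ[X] | (∀ i, f i ∈ weilPolysAbove p m (n i) (g i) (s i) (T i)) ∧
      ¬ HasPatterns p m n g G A f}.ncard : ℝ) ≤ (Z.card : ℝ) := by
    have h2 := (Set.ncard_le_ncard hsub ((Finset.finite_toSet _).image _)).trans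
      (Set.ncard_image_le (Finset.finite_toSet _))
    rw [Set.ncard_coe_finset] at h2
    exact_mod_cast h2
  refine h1.trans ?_
  have h3 : (Z.card : ℝ) ≤ ∑ κ : K, ((X.filter
      (fun x => ∀ l ∈ P, red l x ∉ event p m g s l (A κ l))).card : ℝ) := by
    exact_mod_cast Finset.card_biUnion_le
  refine h3.trans ((Finset.sum_le_sum fun κ _ => hbound κ).trans ?_)
  rw [Finset.sum_const, Finset.card_univ, nsmul_eq_mul]

/-- The volume of the box is at most a constant times the number of the tuples. -/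
theorem box_le (hp : p.Prime) (hs : ∀ i, IsPolygon (n i) (g i) (s i) (T i)) (hm : 0 < m)
    (hlam : ∀ i k, 0 < k → k ≤ g i → (2 : ℝ) ^ g i ≤ lam p m (n i) (s i) k) :
    ∏ j, (len p m n g s j : ℝ) ≤
      (∏ i, ((3 * 4 ^ g i) ^ g i * (4 * 2 ^ g i) ^ g i : ℝ)) *
        ∏ i, ((weilPolysAbove p m (n i) (g i) (s i) (T i)).ncard : ℝ) := by
  have h1 : ∏ j, (len p m n g s j : ℝ) ≤
      ∏ j : (Σ i, Fin (g i)), ((3 * 4 ^ g j.1) * lam p m (n j.1) (s j.1) (g j.1 - j.2)) := by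
    refine Finset.prod_le_prod (fun _ _ => Nat.cast_nonneg _) fun j _ => len_le hp j ?_
    exact (one_le_pow₀ (by norm_num)).trans (hlam j.1 _ (by have := j.2.2; omega) (Nat.sub_le _ _))
  refine h1.trans ?_
  rw [Fintype.prod_sigma, ← Finset.prod_mul_distrib]
  refine Finset.prod_le_prod (fun i _ => Finset.prod_nonneg fun k _ =>
    mul_nonneg (by positivity) (lam_pos hp _).le) fun i _ => ?_
  simp only
  rw [Finset.prod_mul_distrib, Finset.prod_const, Finset.card_univ, Fintype.card_fin, mul_assoc]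
  exact mul_le_mul_of_nonneg_left (above_lower hp (hs i) hm (hlam i)) (by positivity)

/-- **Almost all tuples have all patterns.** -/
theorem almost_all (hp : p.Prime) (hs : ∀ i, IsPolygon (n i) (g i) (s i) (T i)) {K : Type}
    [Fintype K] {G : Set ℕ} (hG : G.Infinite) (hGp : ∀ l ∈ G, l.Prime ∧ ¬ l ∣ p)
    (A : K → ∀ m l : ℕ, ∀ _ : I, Set (ZMod l)[X])
    (hA : ∀ κ m, ∀ l ∈ G, ∀ i, ∀ f ∈ A κ m l i, f.Monic ∧ f.natDegree = g i) {c : ℝ} (hc : 0 < c)
    (hAc : ∀ κ m, ∀ l ∈ G, ∀ i, c * (l : ℝ) ^ g i ≤ ((A κ m l i).ncard : ℝ)) {ε : ℝ}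
    (hε : 0 < ε) : ∃ m₀ : ℕ, ∀ m ≥ m₀,
      ({f : I → ℤ[X] | (∀ i, f i ∈ weilPolysAbove p m (n i) (g i) (s i) (T i)) ∧
        ¬ HasPatterns p m n g G (fun κ l i => A κ m l i) f}.ncard : ℝ) ≤
      ε * ∏ i, ((weilPolysAbove p m (n i) (g i) (s i) (T i)).ncard : ℝ) := by
  classical
  set C : ℝ := ∏ i, ((3 * 4 ^ g i) ^ g i * (4 * 2 ^ g i) ^ g i : ℝ) with hC
  have hC0 : 0 < C := Finset.prod_pos fun i _ => by positivity
  set c' : ℝ := (c ^ Fintype.card I) ^ 2 with hc'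
  have hc'0 : 0 < c' := by positivity
  set κ₀ : ℝ := (Fintype.card K : ℝ) with hκ
  have hκ0 : 0 ≤ κ₀ := Nat.cast_nonneg _
  obtain ⟨a, ha⟩ := exists_nat_gt (2 * κ₀ * C / (c' * ε))
  obtain ⟨P, hPG, hPc⟩ := hG.exists_subset_card_eq (a + 1)
  have hPne : P.Nonempty := by
    rw [← Finset.card_pos]
    omega
  set Q : ℝ := ∑ l ∈ P, (l : ℝ) with hQ
  have hQl : ∀ l ∈ P, (l : ℝ) ≤ Q := fun l hl =>
    Finset.single_le_sum (f := fun l : ℕ => (l : ℝ)) (fun _ _ => Nat.cast_nonneg _) hl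
  set B : ℝ := 2 * κ₀ * C * (Fintype.card (Σ i, Fin (g i)) * Q ^ 2) / (c' * ε) + 1 with hB
  have hB0 : 0 < B := by positivity
  have hl : ∀ i, ∃ m₀ : ℕ, ∀ m ≥ m₀, ∀ k, 0 < k → k ≤ g i →
      max B (2 ^ g i) ≤ lam p m (n i) (s i) k := fun i => lam_large hp (hs i) _
  choose m₀ hm₀ using hl
  refine ⟨1 + ∑ i, m₀ i, fun m hm => ?_⟩
  have hmi : ∀ i, m₀ i ≤ m := fun i => by
    have := Finset.single_le_sum (f := m₀) (fun j _ => Nat.zero_le _) (Finset.mem_univ i)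
    omega
  have h1 := bad_count (G := G) (T := T) (A := fun κ l i => A κ m l i) hp hs hPne hQl
    (fun l hl => hGp l (hPG hl)) (fun l hl => hPG hl) (fun κ l hl i => hA κ m l (hPG hl) i) hc
    (fun κ l hl i => hAc κ m l (hPG hl) i) hB0
    (fun i k h0 hk => (le_max_left _ _).trans (hm₀ i m (hmi i) k h0 hk))
  refine h1.trans ?_
  have h2 := box_le (T := T) hp hs (by omega : 0 < m)
    (fun i k h0 hk => (le_max_right _ _).trans (hm₀ i m (hmi i) k h0 hk))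
  rw [← hC] at h2
  set V : ℝ := ∏ j, (len p m n g s j : ℝ) with hV
  set S : ℝ := ∏ i, ((weilPolysAbove p m (n i) (g i) (s i) (T i)).ncard : ℝ) with hS
  have hS0 : 0 ≤ S := Finset.prod_nonneg fun _ _ => Nat.cast_nonneg _
  have hPc' : (P.card : ℝ) = a + 1 := by rw [hPc]; push_cast; ring
  have e1 : κ₀ * C * (1 / (c' * P.card)) ≤ ε / 2 := by
    rw [hPc', mul_one_div, div_le_div_iff₀ (by positivity) two_pos]
    rw [div_lt_iff₀ (by positivity)] at ha
    nlinarith [mul_pos hc'0 hε]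
  have e2 : κ₀ * C * (Fintype.card (Σ i, Fin (g i)) * Q ^ 2 / (c' * B)) ≤ ε / 2 := by
    have h3 : 2 * κ₀ * C * (Fintype.card (Σ i, Fin (g i)) * Q ^ 2) / (c' * ε) ≤ B := by
      rw [hB]
      linarith
    rw [div_le_iff₀ (by positivity)] at h3
    rw [mul_div_assoc', div_le_div_iff₀ (by positivity) two_pos]
    linarith
  have e3 : κ₀ * C * (1 / (c' * P.card) +
      Fintype.card (Σ i, Fin (g i)) * Q ^ 2 / (c' * B)) ≤ ε := by
    rw [mul_add]
    linarith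
  have e4 : 0 ≤ 1 / (c' * P.card) + Fintype.card (Σ i, Fin (g i)) * Q ^ 2 / (c' * B) := by
    positivity
  calc κ₀ * ((1 / (c' * P.card) + Fintype.card (Σ i, Fin (g i)) * Q ^ 2 / (c' * B)) * V)
      ≤ κ₀ * ((1 / (c' * P.card) + Fintype.card (Σ i, Fin (g i)) * Q ^ 2 / (c' * B)) * (C * S)) :=
        mul_le_mul_of_nonneg_left (mul_le_mul_of_nonneg_left h2 e4) hκ0
    _ = (κ₀ * C * (1 / (c' * P.card) +
          Fintype.card (Σ i, Fin (g i)) * Q ^ 2 / (c' * B))) * S := by ring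
    _ ≤ ε * S := mul_le_mul_of_nonneg_right e3 hS0

end Pool.Agent.H28.HP
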