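import Pool.Agent.H28.HP.Defs

/-!
# Estimates for the heights of the polygon
-/

set_option autoImplicit false

namespace Pool.Agent.H28.HP

open Finset

variable {n g : ℕ} {s : ℕ → ℚ} {T : Set ℕ}

theorem height_zero (s : ℕ → ℚ) (m : ℕ) : height s m 0 = 0 := by
  simp [height, ordinate]

theorem ordinate_sub {k i : ℕ} (h : i ≤ k) : ordinate s k - ordinate s i = ∑ j ∈ Ico i k, s j := by
  rw [ordinate, ordinate, ← Finset.sum_range_add_sum_Ico s h]
  ring

theorem ordinate_nonneg (hs : IsPolygon n g s T) {k : ℕ} (hk : k ≤ g) : 0 ≤ ordinate s k :=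
  Finset.sum_nonneg fun j hj => hs.nonneg j (by have := Finset.mem_range.1 hj; omega)

/-- The increments. -/
theorem ordinate_le (hs : IsPolygon n g s T) {k i : ℕ} (hk : k ≤ g) (hi : i ≤ k) :
    ordinate s k ≤ ordinate s i + (k - i : ℕ) * (n / 2 : ℚ) := by
  have h1 := ordinate_sub (s := s) hi
  have h2 : ∑ j ∈ Ico i k, s j ≤ (k - i : ℕ) * (n / 2 : ℚ) := by
    have h3 := Finset.sum_le_card_nsmul (Ico i k) s (n / 2 : ℚ) fun j hj =>
      hs.le_half j (by have := Finset.mem_Ico.1 hj; omega)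
    rw [Nat.card_Ico, nsmul_eq_mul] at h3
    exact h3
  linarith

theorem ordinate_lt (hs : IsPolygon n g s T) {k i : ℕ} (hk : k ≤ g) (hi : i < k)
    (hlt : s (k - 1) < n / 2) :
    ordinate s k < ordinate s i + (k - i : ℕ) * (n / 2 : ℚ) := by
  have h1 := ordinate_sub (s := s) hi.le
  have h2 : ∑ j ∈ Ico i k, s j < (k - i : ℕ) * (n / 2 : ℚ) := by
    have h3 := Finset.sum_lt_sum_of_nonempty (s := Ico i k) (f := s) (g := fun _ => (n / 2 : ℚ))
      (by rw [Finset.nonempty_Ico]; exact hi) (fun j hj => by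
        have h4 := Finset.mem_Ico.1 hj
        exact (hs.mono j (k - 1) (by omega) (by omega)).trans_lt hlt)
    rw [Finset.sum_const, Nat.card_Ico, nsmul_eq_mul] at h3
    exact h3
  linarith

theorem height_le (hs : IsPolygon n g s T) (m : ℕ) {k t : ℕ} (hk : k ≤ g) (ht : 2 * t ≤ k) :
    height s m k ≤ n * m * t + height s m (k - 2 * t) := by
  have h1 := ordinate_le hs hk (show k - 2 * t ≤ k by omega)
  rw [show k - (k - 2 * t) = 2 * t by omega] at h1
  rw [height, Nat.ceil_le]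
  have h2 : (m : ℚ) * ordinate s (k - 2 * t) ≤ (height s m (k - 2 * t) : ℚ) := Nat.le_ceil _
  have h3 : (m : ℚ) * ordinate s k ≤
      (m : ℚ) * (ordinate s (k - 2 * t) + ((2 * t : ℕ) : ℚ) * (n / 2 : ℚ)) :=
    mul_le_mul_of_nonneg_left h1 (Nat.cast_nonneg m)
  push_cast at h3 ⊢
  linarith

/-- The height at an element of `T` is `m` times the ordinate. -/
theorem height_eq (hs : IsPolygon n g s T) (m : ℕ) {k : ℕ} (hk : k ∈ T) :
    (height s m k : ℚ) = (m : ℚ) * ordinate s k := by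
  obtain ⟨h1, h2, h3, z, hz⟩ := hs.vertex k hk
  have h0 := ordinate_nonneg hs h2
  rw [hz] at h0
  obtain ⟨w, rfl⟩ : ∃ w : ℕ, z = w := ⟨z.toNat, by
    have : 0 ≤ z := by exact_mod_cast h0
    omega⟩
  rw [height, hz]
  have h4 : (m : ℚ) * ((w : ℤ) : ℚ) = ((m * w : ℕ) : ℚ) := by push_cast; ring
  rw [h4, Nat.ceil_natCast]

theorem height_lt (hs : IsPolygon n g s T) {m : ℕ} (hm : 0 < m) {k t : ℕ} (hk : k ∈ T)
    (ht0 : 0 < t) (ht : 2 * t ≤ k) :
    height s m k + 1 ≤ n * m * t + height s m (k - 2 * t) := by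
  obtain ⟨h1, h2, h3, -⟩ := hs.vertex k hk
  have h4 := ordinate_lt hs h2 (show k - 2 * t < k by omega) h3
  rw [show k - (k - 2 * t) = 2 * t by omega] at h4
  have h5 : (height s m k : ℚ) < (n * m * t + height s m (k - 2 * t) : ℕ) := by
    rw [height_eq hs m hk]
    have h6 : (m : ℚ) * ordinate s (k - 2 * t) ≤ (height s m (k - 2 * t) : ℚ) := Nat.le_ceil _
    have h7 : (m : ℚ) * ordinate s k <
        (m : ℚ) * (ordinate s (k - 2 * t) + ((2 * t : ℕ) : ℚ) * (n / 2 : ℚ)) :=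
      mul_lt_mul_of_pos_left h4 (by exact_mod_cast hm)
    push_cast at h7 ⊢
    linarith
  exact_mod_cast h5

theorem height_le_half (hs : IsPolygon n g s T) (m : ℕ) {k : ℕ} (hk : k ≤ g) :
    height s m k ≤ n * m * ((k + 1) / 2) := by
  rw [height, Nat.ceil_le]
  have h1 := ordinate_le hs hk (Nat.zero_le k)
  have h2 : (m : ℚ) * ordinate s k ≤
      (m : ℚ) * (ordinate s 0 + ((k - 0 : ℕ) : ℚ) * (n / 2 : ℚ)) :=
    mul_le_mul_of_nonneg_left h1 (Nat.cast_nonneg m)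
  have h3 : ordinate s 0 = 0 := by simp [ordinate]
  rw [h3, zero_add, Nat.sub_zero] at h2
  have h4 : (k : ℚ) ≤ 2 * (((k + 1) / 2 : ℕ) : ℚ) := by
    have : k ≤ 2 * ((k + 1) / 2) := by omega
    exact_mod_cast this
  have h5 : (0 : ℚ) ≤ (n : ℚ) * m := by positivity
  push_cast
  nlinarith

theorem height_lt_half (hs : IsPolygon n g s T) {m : ℕ} (hm : 0 < m) {k : ℕ} (hk : k ∈ T) :
    height s m k + 1 ≤ n * m * ((k + 1) / 2) := by
  obtain ⟨h1, h2, h3, -⟩ := hs.vertex k hk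
  have h4 := ordinate_lt hs h2 h1 h3
  have h3 : ordinate s 0 = 0 := by simp [ordinate]
  rw [h3, zero_add, Nat.sub_zero] at h4
  have h5 : (height s m k : ℚ) < (n * m * ((k + 1) / 2) : ℕ) := by
    rw [height_eq hs m hk]
    have h6 : (k : ℚ) ≤ 2 * (((k + 1) / 2 : ℕ) : ℚ) := by
      have : k ≤ 2 * ((k + 1) / 2) := by omega
      exact_mod_cast this
    have h7 : (m : ℚ) * ordinate s k < (m : ℚ) * ((k : ℚ) * (n / 2 : ℚ)) :=
      mul_lt_mul_of_pos_left h4 (by exact_mod_cast hm)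
    have h8 : (0 : ℚ) ≤ (n : ℚ) * m := by positivity
    push_cast at h6 h7 ⊢
    nlinarith
  exact_mod_cast h5

/-- The gap between the height and `m n k / 2` grows linearly with `m`. -/
theorem height_gap (hs : IsPolygon n g s T) (m : ℕ) {k : ℕ} (h0 : 0 < k) (hk : k ≤ g) :
    (height s m k : ℚ) ≤ m * (n * k / 2 : ℚ) - m * (n / 2 - s 0 : ℚ) + 1 := by
  have h1 : ordinate s k ≤ ordinate s 1 + (k - 1 : ℕ) * (n / 2 : ℚ) := ordinate_le hs hk h0
  have h2 : ordinate s 1 = s 0 := by simp [ordinate]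
  have h3 : ((k - 1 : ℕ) : ℚ) = k - 1 := by
    rw [Nat.cast_sub h0]
    simp
  rw [h2, h3] at h1
  have h4 : (m : ℚ) * ordinate s k ≤ (m : ℚ) * (s 0 + (k - 1) * (n / 2 : ℚ)) :=
    mul_le_mul_of_nonneg_left h1 (Nat.cast_nonneg m)
  have h5 : (height s m k : ℚ) < (m : ℚ) * ordinate s k + 1 :=
    Nat.ceil_lt_add_one (mul_nonneg (Nat.cast_nonneg m) (ordinate_nonneg hs hk))
  nlinarith

end Pool.Agent.H28.HP
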